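import Mathlib
import Pool.Agent.LRE.E4
import Pool.Agent.MP_f1b527_co.Count

set_option autoImplicit false

namespace Pool.Agent.LRG

open Finset
open Pool.Agent.MP_f1b527_co
open Pool.Agent.LRE

open scoped Classical in
theorem g1_aux (c t κ i : ℕ) (hi : 1 ≤ i) (ht : i + 1 ≤ t) (hκ : κ ≤ i * t)
    (r : Fin (c + t + (c + i)) → Fin (c + t + (c + i)) → Prop) (hirr : ∀ x, ¬ r x x)
    (htr : ∀ a b c, r a b → r b c → r a c) (hcp : cp r univ = (c + i) * (c + t) - κ) :
    ((extSet r).ncard : ℝ) * ((i : ℝ) * t - κ + ((c : ℝ) + 1)) ≤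
      ((c : ℝ) + 1) * ((c.factorial : ℝ) * ((c + t + i).factorial : ℝ)) := by
  have hsub : c + t + (c + i) - c = c + t + i := by omega
  have hmm : mm 1 c (c + t + (c + i)) = c.choose 2 + (c + t + i).choose 2 := by
    rw [mm, hsub, e4_sum]
  have hEE : EE 1 c (c + t + (c + i)) = c.factorial * (c + t + i).factorial := by
    have h0 : ∏ j ∈ range (c + t + i), (j / 1 + 1) = (c + t + i).factorial := by
      rw [← Finset.prod_range_add_one_eq_factorial]
      exact Finset.prod_congr rfl fun j _ => by rw [Nat.div_one]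
    rw [EE, hsub, h0]
  have hch : (c + t + (c + i)).choose 2 =
      c.choose 2 + (c + t + i).choose 2 + c * (c + t + i) := by
    have h1 := e4_choose c (c + t + i)
    have e : c + t + i + c = c + t + (c + i) := by ring
    rw [e] at h1
    exact h1
  have h1 := ext_bound r hirr htr (δ := i * t - κ) (b := 1) (c := c) le_rfl (by omega)
    (by
      rw [hmm, hch, hcp]
      have e : (c + i) * (c + t) = c * (c + t + i) + i * t := by ring
      rw [e]
      omega)
  rw [hEE] at h1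
  have h3 : (((extSet r).ncard * (i * t - κ + c + 1) : ℕ) : ℝ) ≤
      (((c + 1) * (c.factorial * (c + t + i).factorial) : ℕ) : ℝ) := by exact_mod_cast h1
  push_cast [Nat.cast_sub hκ] at h3
  have e2 : (i : ℝ) * t - κ + ((c : ℝ) + 1) = (i : ℝ) * t - κ + c + 1 := by ring
  rw [e2]
  exact h3

/-- Row LRF-G1. As `UB_deficit` and `cc_aux` in LRP/CC.lean (the case `i = 1`; copy): `UB_of_nested`
and `ext_bound` with `b = 1`, `c = s - i`: with `n = N + s`, `n - c = N + i`,
`mm 1 c n = c.choose 2 + (N+i).choose 2` (`e4_sum`), `EE 1 c n = c! (N+i)!`,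
`n.choose 2 = c.choose 2 + (N+i).choose 2 + c (N+i)` (`e4_choose`), and
`s N - κ = (s-i)(N+i) + δ` with `δ = i (N + i - s) - κ`. The result is
`lin (δ + c + 1) ≤ (c + 1) c! (N+i)!`. -/
theorem UB_drop (s N κ i : ℕ) (hi : 1 ≤ i) (his : i ≤ s) (hsN : s + 1 ≤ N)
    (hκ : κ ≤ i * (N + i - s)) :
    UB (N + s) (s * N - κ)
      (((s - i).factorial : ℝ) * ((N + i).factorial : ℝ) * ((s : ℝ) - i + 1) /
        ((i : ℝ) * ((N : ℝ) + i - s) - κ + ((s : ℝ) - i + 1))) := by
  obtain ⟨c, rfl⟩ : ∃ c, s = c + i := ⟨s - i, by omega⟩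
  obtain ⟨t, rfl⟩ : ∃ t, N = c + t := ⟨N - c, by omega⟩
  have e1 : c + t + i - (c + i) = t := by omega
  have e2 : c + i - i = c := by omega
  rw [e1] at hκ
  rw [e2]
  have hκr : (κ : ℝ) ≤ i * t := by exact_mod_cast hκ
  have e3 : (i : ℝ) * (((c + t : ℕ) : ℝ) + i - ((c + i : ℕ) : ℝ)) - κ +
      (((c + i : ℕ) : ℝ) - i + 1) = (i : ℝ) * t - κ + ((c : ℝ) + 1) := by
    push_cast
    ring
  have e4 : (c.factorial : ℝ) * ((c + t + i).factorial : ℝ) * (((c + i : ℕ) : ℝ) - i + 1) =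
      ((c : ℝ) + 1) * ((c.factorial : ℝ) * ((c + t + i).factorial : ℝ)) := by
    push_cast
    ring
  rw [e3, e4]
  have hpos : (0 : ℝ) < (i : ℝ) * t - κ + ((c : ℝ) + 1) := by
    have : (0 : ℝ) ≤ c := Nat.cast_nonneg c
    linarith
  refine UB_of_nested _ _ _ fun r hirr htr _ hcp => ?_
  rw [le_div_iff₀ hpos]
  exact g1_aux c t κ i hi (by omega) hκ r hirr htr hcp

end Pool.Agent.LRG
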