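import Mathlib
import Pool.Agent.LRT.Z2

set_option autoImplicit false

namespace Pool.Agent.LRG

open Finset
open Pool.Agent.LRE Pool.Agent.LRT

theorem hh_mid (c : ℕ) (x ε : ℝ) (hx : 0 ≤ x) (hε : 0 ≤ ε) :
    hh c (x + ε) ^ 2 ≤ hh c x * hh c (x + 2 * ε) := by
  induction c with
  | zero => simp [hh_zero]
  | succ c ih =>
    rw [hh_succ, hh_succ, hh_succ]
    have h1 : (0 : ℝ) < (c : ℝ) + 1 := by positivity
    have h2 : (0 : ℝ) < x + ((c : ℝ) + 1) := by positivity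
    have h3 : (0 : ℝ) < x + ε + ((c : ℝ) + 1) := by positivity
    have h4 : (0 : ℝ) < x + 2 * ε + ((c : ℝ) + 1) := by positivity
    have h5 : (((c : ℝ) + 1) / (x + ε + ((c : ℝ) + 1))) ^ 2 ≤
        (((c : ℝ) + 1) / (x + ((c : ℝ) + 1))) * (((c : ℝ) + 1) / (x + 2 * ε + ((c : ℝ) + 1))) := by
      rw [div_pow, div_mul_div_comm, div_le_div_iff₀ (by positivity) (by positivity)]
      have : (x + ((c : ℝ) + 1)) * (x + 2 * ε + ((c : ℝ) + 1)) ≤ (x + ε + ((c : ℝ) + 1)) ^ 2 := by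
        nlinarith [sq_nonneg ε]
      have h6 : 0 ≤ ((c : ℝ) + 1) ^ 2 := by positivity
      nlinarith
    calc (hh c (x + ε) * (((c : ℝ) + 1) / (x + ε + ((c : ℝ) + 1)))) ^ 2
        = hh c (x + ε) ^ 2 * (((c : ℝ) + 1) / (x + ε + ((c : ℝ) + 1))) ^ 2 := by ring
      _ ≤ (hh c x * hh c (x + 2 * ε)) * ((((c : ℝ) + 1) / (x + ((c : ℝ) + 1))) *
          (((c : ℝ) + 1) / (x + 2 * ε + ((c : ℝ) + 1)))) := by
          apply mul_le_mul ih h5 (by positivity)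
          exact mul_nonneg (hh_pos c hx).le (hh_pos c (by positivity)).le
      _ = _ := by ring

theorem conv_kappa (l : ℕ) (A : ℝ) (a b κ : ℕ) (hl : 2 ≤ l) (ha : a ≤ κ) (hb : κ ≤ b)
    (hA : (b : ℝ) < A) :
    hh (l - 1) ((κ : ℝ) / ((l : ℝ) - 1)) / (A - κ) ≤
      max (hh (l - 1) ((a : ℝ) / ((l : ℝ) - 1)) / (A - a))
        (hh (l - 1) ((b : ℝ) / ((l : ℝ) - 1)) / (A - b)) := by
  have hl1 : (0 : ℝ) < (l : ℝ) - 1 := by
    have : (2 : ℝ) ≤ l := by exact_mod_cast hl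
    linarith
  have hcast : ∀ c : ℕ, c ≤ b → (c : ℝ) < A := fun c hc =>
    lt_of_le_of_lt (by exact_mod_cast hc) hA
  refine conv_max (fun c => hh (l - 1) ((c : ℝ) / ((l : ℝ) - 1)) / (A - c)) a b ?_ ?_ κ ha hb
  · intro c _ hc
    apply div_pos (hh_pos _ (div_nonneg (Nat.cast_nonneg _) hl1.le))
    linarith [hcast c hc]
  · intro c _ hc
    have h1 := hh_mid (l - 1) ((c : ℝ) / ((l : ℝ) - 1)) (1 / ((l : ℝ) - 1))
      (div_nonneg (Nat.cast_nonneg _) hl1.le) (by positivity)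
    have e1 : (c : ℝ) / ((l : ℝ) - 1) + 1 / ((l : ℝ) - 1) = ((c + 1 : ℕ) : ℝ) / ((l : ℝ) - 1) := by
      push_cast
      ring
    have e2 : (c : ℝ) / ((l : ℝ) - 1) + 2 * (1 / ((l : ℝ) - 1)) =
        ((c + 2 : ℕ) : ℝ) / ((l : ℝ) - 1) := by
      push_cast
      ring
    rw [e1, e2] at h1
    have h2 := hcast (c + 2) hc
    push_cast at h2
    have g0 : 0 < A - (c : ℝ) := by linarith
    have g1 : 0 < A - ((c + 1 : ℕ) : ℝ) := by push_cast; linarith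
    have g2 : 0 < A - ((c + 2 : ℕ) : ℝ) := by push_cast; linarith
    have p0 := hh_pos (l - 1) (div_nonneg (Nat.cast_nonneg (α := ℝ) c) hl1.le)
    have p2 := hh_pos (l - 1) (div_nonneg (Nat.cast_nonneg (α := ℝ) (c + 2)) hl1.le)
    show (hh (l - 1) (((c + 1 : ℕ) : ℝ) / ((l : ℝ) - 1)) / (A - ((c + 1 : ℕ) : ℝ))) ^ 2 ≤
      hh (l - 1) ((c : ℝ) / ((l : ℝ) - 1)) / (A - (c : ℝ)) *
        (hh (l - 1) (((c + 2 : ℕ) : ℝ) / ((l : ℝ) - 1)) / (A - ((c + 2 : ℕ) : ℝ)))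
    rw [div_pow, div_mul_div_comm, div_le_div_iff₀ (by positivity) (by positivity)]
    apply mul_le_mul h1 _ (by positivity) (by positivity)
    push_cast
    nlinarith

/-- the node values -/
noncomputable def RN (l N s i : ℕ) : ℝ :=
  (N : ℝ) * ((N + i).choose i : ℝ) / (s.choose i : ℝ) *
    hh (l - 1) ((i : ℝ) * ((N : ℝ) + i - s) / ((l : ℝ) - 1))

end Pool.Agent.LRG
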