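import Mathlib
import Pool.Agent.LRG.G3
import Pool.Agent.LRT.H2

set_option autoImplicit false

namespace Pool.Agent.LRG

open Finset
open Pool.Agent.LRE Pool.Agent.LRT

/-- the polynomial inequality of `RN_anti` in the worst case -/
theorem g5_poly (l i : ℝ) (h7 : 7 ≤ l) (hi : 1 ≤ i) (h4 : 4 * i ≤ l + 2)
    (hii : i = 1 ∨ 2 ≤ i) :
    0 ≤ l ^ 2 * (2 * i - 1) - l * (2 * i ^ 2 - 1) - 9 * i - 5 * i ^ 2 := by
  rcases hii with rfl | h2
  · nlinarith
  · have e1 : 0 ≤ l * (2 * i - 1) * (l - (4 * i - 2)) := by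
      refine mul_nonneg (mul_nonneg (by linarith) (by linarith)) (by linarith)
    have e2 : 0 ≤ (l - 7) * (6 * i ^ 2 - 8 * i + 3) := by
      refine mul_nonneg (by linarith) (by nlinarith)
    nlinarith

/-- the key inequality of `RN_anti` -/
theorem g5_key (l N s i : ℝ) (h7 : 7 ≤ l) (hi : 1 ≤ i) (his : i ≤ s) 
    (hN : 3 * l + 4 ≤ N) (h4 : 4 * i ≤ l + 2) (hii : i = 1 ∨ 2 ≤ i) :
    (i + 1) * (i * (N + i - s) + l * (l - 1)) ≤ i * (l - 1) * (N + i + 1) := by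
  have h1 := g5_poly l i h7 hi h4 hii
  have h2 : 0 ≤ i * (l - 2 - i) * (N - (3 * l + 4)) :=
    mul_nonneg (mul_nonneg (by linarith) (by linarith)) (by linarith)
  have h3 : 0 ≤ (i + 1) * i * (s - i) :=
    mul_nonneg (mul_nonneg (by linarith) (by linarith)) (by linarith)
  linear_combination h1 + h2 + h3

/-- Row LRF-G5. Let `b = i (N+i-s)/(l-1)`, `ε = i/(l-1) ≤ 1`. `(N+1+i).choose i / (N+i).choose i =
(N+1+i)/(N+1)`, so `RN l (N+1) s i = RN l N s i * (N+1+i)/N * hh (l-1) (b+ε)/hh (l-1) b`.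
`hh_rpow (l-1) b ε` (LRT/H2.lean): the last quotient is at most `((b+1)/(b+l))^ε ≤ 1 - i/(b+l)`
(Bernoulli, `rpow_one_add_le_one_add_mul_self`, `1 - (b+1)/(b+l) = (l-1)/(b+l)`). So
`(N+1+i)(b+l-i) ≤ N (b+l)` is enough, i.e. `(i+1)(b+l) ≤ i (N+1+i)`, i.e.
`(i+1)(i (N-s+i) + l (l-1)) ≤ i (l-1)(N+i+1)`. The difference increases with `s`; with `s = i + q`,
`N = 3l + 4 + r` and `i = 1, l = 7 + t`, or `i = 2, l = 7 + t`, or `i = 3 + p, l = 4i - 2 + t`, ALL
COEFFICIENTS of the difference in `p, q, t, r` are positive (checked). -/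
theorem RN_anti (l N s i : ℕ) (h7 : 7 ≤ l) (hi : 1 ≤ i) (his : i ≤ s) (hsl : s ≤ l)
    (hN : 3 * l + 4 ≤ N) (h4 : 4 * i ≤ l + 2) : RN l (N + 1) s i ≤ RN l N s i := by
  have hl1 : ((l - 1 : ℕ) : ℝ) = (l : ℝ) - 1 := by
    rw [Nat.cast_sub (by omega)]; simp
  have h7' : (7 : ℝ) ≤ l := by exact_mod_cast h7
  have hi' : (1 : ℝ) ≤ i := by exact_mod_cast hi
  have his' : (i : ℝ) ≤ s := by exact_mod_cast his
  have hsl' : (s : ℝ) ≤ l := by exact_mod_cast hsl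
  have hN' : 3 * (l : ℝ) + 4 ≤ N := by exact_mod_cast hN
  have h4' : 4 * (i : ℝ) ≤ l + 2 := by exact_mod_cast h4
  have hii : (i : ℝ) = 1 ∨ (2 : ℝ) ≤ i := by
    rcases Nat.lt_or_ge i 2 with h | h
    · left
      have : i = 1 := by omega
      rw [this]; norm_num
    · right; exact_mod_cast h
  have key := g5_key l N s i h7' hi' his' hN' h4' hii
  have hl0 : (0 : ℝ) < (l : ℝ) - 1 := by linarith
  have hcN : ((N + 1 + i).choose i : ℝ) * ((N : ℝ) + 1) = ((N + i).choose i : ℝ) * (N + 1 + i) := by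
    have h := Nat.choose_mul_succ_eq (N + i) i
    have e1 : N + i + 1 - i = N + 1 := by omega
    have e2 : N + i + 1 = N + 1 + i := by omega
    rw [e1, e2] at h
    have h' : (((N + i).choose i * (N + 1 + i) : ℕ) : ℝ) =
        (((N + 1 + i).choose i * (N + 1) : ℕ) : ℝ) := by rw [h]
    push_cast at h'
    linarith
  obtain ⟨b, hb⟩ : ∃ b : ℝ, b = (i : ℝ) * ((N : ℝ) + i - s) / ((l : ℝ) - 1) := ⟨_, rfl⟩
  obtain ⟨ε, hε⟩ : ∃ ε : ℝ, ε = (i : ℝ) / ((l : ℝ) - 1) := ⟨_, rfl⟩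
  have hb0 : 0 ≤ b := by
    rw [hb]
    exact div_nonneg (mul_nonneg (by linarith) (by linarith)) hl0.le
  have hε0 : 0 ≤ ε := by rw [hε]; exact div_nonneg (by linarith) hl0.le
  have hε1 : ε ≤ 1 := by
    rw [hε, div_le_one hl0]; linarith
  have hbε : (i : ℝ) * (((N + 1 : ℕ) : ℝ) + i - s) / ((l : ℝ) - 1) = b + ε := by
    rw [hb, hε]; push_cast; ring
  have hr := hh_rpow (l - 1) b ε hb0 hε0 hε1
  rw [hl1] at hr
  have hbl : 0 < b + l := by linarith
  have e0 : b + ((l : ℝ) - 1) + 1 = b + l := by ring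
  rw [e0] at hr
  have hy : 0 < (b + 1) / (b + l) := by positivity
  have hbern := rpow_one_add_le_one_add_mul_self (s := (b + 1) / (b + l) - 1) (p := ε)
    (by linarith) hε0 hε1
  rw [add_sub_cancel] at hbern
  have hval : 1 + ε * ((b + 1) / (b + l) - 1) = 1 - (i : ℝ) / (b + l) := by
    rw [hε]; field_simp; ring
  rw [hval] at hbern
  have hh0 := hh_pos (l - 1) hb0
  have hstep : hh (l - 1) (b + ε) ≤ hh (l - 1) b * (1 - (i : ℝ) / (b + l)) :=
    hr.trans (mul_le_mul_of_nonneg_left hbern hh0.le)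
  have hmain : ((N : ℝ) + 1 + i) * (1 - (i : ℝ) / (b + l)) ≤ N := by
    have e1 : (i + 1 : ℝ) * (b + l) ≤ i * (N + i + 1) := by
      have e2 : b * ((l : ℝ) - 1) = i * ((N : ℝ) + i - s) := by
        rw [hb]; field_simp
      have e3 : ((i : ℝ) + 1) * (b + l) * (l - 1) ≤ (i * (N + i + 1)) * (l - 1) := by
        have e4 : ((i : ℝ) + 1) * (b + l) * (l - 1) =
            (i + 1) * (b * ((l : ℝ) - 1) + l * (l - 1)) := by ring
        rw [e4, e2]
        linarith [key]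
      exact le_of_mul_le_mul_right e3 hl0
    have e5 : ((N : ℝ) + 1 + i) * (1 - (i : ℝ) / (b + l)) =
        N + (((i : ℝ) + 1) * (b + l) - i * (N + i + 1)) / (b + l) := by
      field_simp; ring
    rw [e5]
    have e6 : (((i : ℝ) + 1) * (b + l) - i * (N + i + 1)) / (b + l) ≤ 0 :=
      div_nonpos_of_nonpos_of_nonneg (by linarith) hbl.le
    linarith
  have hcs : (0 : ℝ) ≤ ((N + i).choose i : ℝ) / (s.choose i : ℝ) := by positivity
  unfold RN
  rw [hbε, ← hb]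
  have e7 : (((N + 1 : ℕ) : ℝ)) * ((N + 1 + i).choose i : ℝ) / (s.choose i : ℝ) =
      ((N + i).choose i : ℝ) / (s.choose i : ℝ) * ((N : ℝ) + 1 + i) := by
    push_cast
    rw [mul_comm ((N : ℝ) + 1), hcN]
    ring
  rw [e7]
  calc ((N + i).choose i : ℝ) / (s.choose i : ℝ) * ((N : ℝ) + 1 + i) * hh (l - 1) (b + ε)
      ≤ ((N + i).choose i : ℝ) / (s.choose i : ℝ) * ((N : ℝ) + 1 + i) *
        (hh (l - 1) b * (1 - (i : ℝ) / (b + l))) := by
        refine mul_le_mul_of_nonneg_left hstep (mul_nonneg hcs (by positivity))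
    _ = ((N + i).choose i : ℝ) / (s.choose i : ℝ) * hh (l - 1) b *
        (((N : ℝ) + 1 + i) * (1 - (i : ℝ) / (b + l))) := by ring
    _ ≤ ((N + i).choose i : ℝ) / (s.choose i : ℝ) * hh (l - 1) b * N :=
        mul_le_mul_of_nonneg_left hmain (mul_nonneg hcs hh0.le)
    _ = (N : ℝ) * ((N + i).choose i : ℝ) / (s.choose i : ℝ) * hh (l - 1) b := by ring

end Pool.Agent.LRG
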