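import Mathlib
import Pool.Agent.LRG.G3

set_option autoImplicit false

namespace Pool.Agent.LRG

open Finset
open Pool.Agent.LRE Pool.Agent.LRT

theorem g6_arg (l N s i : ℕ) (hl : 2 ≤ l) (hsN : s ≤ N) :
    0 ≤ (i : ℝ) * ((N : ℝ) + i - s) / ((l : ℝ) - 1) := by
  have h1 : (2 : ℝ) ≤ l := by exact_mod_cast hl
  have h2 : (s : ℝ) ≤ N := by exact_mod_cast hsN
  have h3 : (0 : ℝ) ≤ i := Nat.cast_nonneg i
  apply div_nonneg (mul_nonneg h3 (by linarith)) (by linarith)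

theorem RN_pos (l N s i : ℕ) (hl : 2 ≤ l) (hN : 1 ≤ N) (his : i ≤ s) (hsN : s ≤ N) :
    0 < RN l N s i := by
  unfold RN
  have h1 : (0 : ℝ) < N := by exact_mod_cast hN
  have h2 : (0 : ℝ) < ((N + i).choose i : ℝ) := by
    exact_mod_cast Nat.choose_pos (Nat.le_add_left i N)
  have h3 : (0 : ℝ) < (s.choose i : ℝ) := by exact_mod_cast Nat.choose_pos his
  have h4 := hh_pos (l - 1) (g6_arg l N s i hl hsN)
  positivity

theorem RN_conv (l N s i : ℕ) (hl : 2 ≤ l) (his : i ≤ s) (hsN : s + 2 ≤ N) :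
    RN l N (s + 1) i ^ 2 ≤ RN l N s i * RN l N (s + 2) i := by
  have hl1 : (0 : ℝ) < (l : ℝ) - 1 := by
    have : (2 : ℝ) ≤ l := by exact_mod_cast hl
    linarith
  have h1 := hh_mid (l - 1) ((i : ℝ) * ((N : ℝ) + i - ((s + 2 : ℕ) : ℝ)) / ((l : ℝ) - 1))
    ((i : ℝ) / ((l : ℝ) - 1)) (g6_arg l N (s + 2) i hl hsN)
    (div_nonneg (Nat.cast_nonneg i) hl1.le)
  have e1 : (i : ℝ) * ((N : ℝ) + i - ((s + 2 : ℕ) : ℝ)) / ((l : ℝ) - 1) + (i : ℝ) / ((l : ℝ) - 1) =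
      (i : ℝ) * ((N : ℝ) + i - ((s + 1 : ℕ) : ℝ)) / ((l : ℝ) - 1) := by
    push_cast
    ring
  have e2 : (i : ℝ) * ((N : ℝ) + i - ((s + 2 : ℕ) : ℝ)) / ((l : ℝ) - 1) +
      2 * ((i : ℝ) / ((l : ℝ) - 1)) =
      (i : ℝ) * ((N : ℝ) + i - (s : ℝ)) / ((l : ℝ) - 1) := by
    push_cast
    ring
  rw [e1, e2] at h1
  unfold RN
  set P := hh (l - 1) ((i : ℝ) * ((N : ℝ) + i - (s : ℝ)) / ((l : ℝ) - 1)) with hP
  set Q := hh (l - 1) ((i : ℝ) * ((N : ℝ) + i - ((s + 1 : ℕ) : ℝ)) / ((l : ℝ) - 1)) with hQ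
  set R := hh (l - 1) ((i : ℝ) * ((N : ℝ) + i - ((s + 2 : ℕ) : ℝ)) / ((l : ℝ) - 1)) with hR
  set K : ℝ := (N : ℝ) * ((N + i).choose i : ℝ) with hK
  have a0 : (0 : ℝ) < (s.choose i : ℝ) := by exact_mod_cast Nat.choose_pos his
  have a1 : (0 : ℝ) < ((s + 1).choose i : ℝ) := by
    exact_mod_cast Nat.choose_pos (show i ≤ s + 1 by omega)
  have a2 : (0 : ℝ) < ((s + 2).choose i : ℝ) := by
    exact_mod_cast Nat.choose_pos (show i ≤ s + 2 by omega)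
  have b1 : ((s + 1).choose i : ℝ) * ((s : ℝ) + 1 - i) = (s.choose i : ℝ) * ((s : ℝ) + 1) := by
    have := Nat.choose_mul_succ_eq s i
    have h2 : (((s.choose i) * (s + 1) : ℕ) : ℝ) = (((s + 1).choose i * (s + 1 - i) : ℕ) : ℝ) := by
      exact_mod_cast this
    rw [Nat.cast_mul, Nat.cast_mul, Nat.cast_sub (by omega)] at h2
    push_cast at h2
    linarith
  have b2 : ((s + 2).choose i : ℝ) * ((s : ℝ) + 2 - i) = ((s + 1).choose i : ℝ) * ((s : ℝ) + 2) := by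
    have := Nat.choose_mul_succ_eq (s + 1) i
    have h2 : ((((s + 1).choose i) * (s + 1 + 1) : ℕ) : ℝ) =
        (((s + 1 + 1).choose i * (s + 1 + 1 - i) : ℕ) : ℝ) := by
      exact_mod_cast this
    rw [Nat.cast_mul, Nat.cast_mul, Nat.cast_sub (by omega)] at h2
    push_cast at h2
    have e : s + 1 + 1 = s + 2 := rfl
    rw [e] at h2
    have e3 : (s : ℝ) + 1 + 1 = s + 2 := by ring
    rw [e3] at h2
    linarith
  have hi : (i : ℝ) ≤ s := by exact_mod_cast his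
  have hi0 : (0 : ℝ) ≤ i := Nat.cast_nonneg i
  have key : (s.choose i : ℝ) * ((s + 2).choose i : ℝ) ≤ ((s + 1).choose i : ℝ) ^ 2 := by
    have c1 : 0 < (s : ℝ) + 1 - i := by linarith
    have c2 : 0 < (s : ℝ) + 2 - i := by linarith
    have hs0 : (0 : ℝ) ≤ s := Nat.cast_nonneg s
    have d1 : (s.choose i : ℝ) = ((s + 1).choose i : ℝ) * (((s : ℝ) + 1 - i) / ((s : ℝ) + 1)) := by
      field_simp
      linarith
    have d2 : ((s + 2).choose i : ℝ) = ((s + 1).choose i : ℝ) * (((s : ℝ) + 2) / ((s : ℝ) + 2 - i)) := by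
      field_simp
      linarith
    rw [d1, d2]
    have d3 : ((s : ℝ) + 1 - i) / ((s : ℝ) + 1) * (((s : ℝ) + 2) / ((s : ℝ) + 2 - i)) ≤ 1 := by
      rw [div_mul_div_comm, div_le_one (by positivity)]
      nlinarith
    calc ((s + 1).choose i : ℝ) * (((s : ℝ) + 1 - i) / ((s : ℝ) + 1)) *
          (((s + 1).choose i : ℝ) * (((s : ℝ) + 2) / ((s : ℝ) + 2 - i)))
        = ((s + 1).choose i : ℝ) ^ 2 * (((s : ℝ) + 1 - i) / ((s : ℝ) + 1) *
          (((s : ℝ) + 2) / ((s : ℝ) + 2 - i))) := by ring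
      _ ≤ ((s + 1).choose i : ℝ) ^ 2 * 1 := mul_le_mul_of_nonneg_left d3 (by positivity)
      _ = _ := by ring
  have hPR : 0 ≤ P * R := by
    rw [hP, hR]
    exact mul_nonneg (hh_pos _ (g6_arg l N s i hl (by omega))).le
      (hh_pos _ (g6_arg l N (s + 2) i hl hsN)).le
  have h1' : Q ^ 2 ≤ P * R := by
    rw [mul_comm]
    exact h1
  have e3 : (K / ((s + 1).choose i : ℝ) * Q) ^ 2 = K ^ 2 * (Q ^ 2 / ((s + 1).choose i : ℝ) ^ 2) := by
    field_simp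
  have e4 : K / (s.choose i : ℝ) * P * (K / ((s + 2).choose i : ℝ) * R) =
      K ^ 2 * (P * R / ((s.choose i : ℝ) * ((s + 2).choose i : ℝ))) := by
    field_simp
  rw [e3, e4]
  apply mul_le_mul_of_nonneg_left _ (by positivity)
  rw [div_le_div_iff₀ (by positivity) (by positivity)]
  exact mul_le_mul h1' key (by positivity) hPR

end Pool.Agent.LRG
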