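import Mathlib
import Pool.Agent.LRG.G3

set_option autoImplicit false

namespace Pool.Agent.LRG

open Finset
open Pool.Agent.LRE Pool.Agent.LRT

/-- the node values for `s = l` with `hh` at `2 i` (`l = m + 1`) -/
noncomputable def g7_T (m i : ℕ) : ℝ :=
  (3 * ((m : ℝ) + 1) + 4) * ((3 * (m + 1) + 4 + i).choose i : ℝ) / ((m + 1).choose i : ℝ) *
    hh m (2 * (i : ℝ))

theorem g7_T_pos (m i : ℕ) (hi : i ≤ m + 1) : 0 < g7_T m i := by
  have h1 : (0 : ℝ) < ((m + 1).choose i : ℝ) := by exact_mod_cast Nat.choose_pos hi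
  have h2 : (0 : ℝ) < ((3 * (m + 1) + 4 + i).choose i : ℝ) := by
    exact_mod_cast Nat.choose_pos (by omega)
  have h3 : 0 < hh m (2 * (i : ℝ)) := hh_pos m (by positivity)
  unfold g7_T
  positivity

theorem g7_step (m i : ℕ) (hi : i ≤ m) : g7_T m (i + 1) *
    (((m : ℝ) + 1 - i) * ((m : ℝ) + 1 + 2 * i) * ((m : ℝ) + 2 + 2 * i)) =
    g7_T m i * ((3 * ((m : ℝ) + 1) + 4 + i + 1) * (2 * (i : ℝ) + 1) * (2 * (i : ℝ) + 2)) := by
  have h1 : (0 : ℝ) < ((m + 1).choose i : ℝ) := by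
    exact_mod_cast Nat.choose_pos (by omega)
  have h1' : (0 : ℝ) < ((m + 1).choose (i + 1) : ℝ) := by
    exact_mod_cast Nat.choose_pos (by omega)
  have e1 : ((3 * (m + 1) + 4 + (i + 1)).choose (i + 1) : ℝ) * ((i : ℝ) + 1) =
      (3 * ((m : ℝ) + 1) + 4 + i + 1) * ((3 * (m + 1) + 4 + i).choose i : ℝ) := by
    have := Nat.add_one_mul_choose_eq (3 * (m + 1) + 4 + i) i
    have h : (((3 * (m + 1) + 4 + i + 1) * (3 * (m + 1) + 4 + i).choose i : ℕ) : ℝ) =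
        (((3 * (m + 1) + 4 + i + 1).choose (i + 1) * (i + 1) : ℕ) : ℝ) := by
      exact_mod_cast this
    push_cast at h
    have e : 3 * (m + 1) + 4 + (i + 1) = 3 * (m + 1) + 4 + i + 1 := by ring
    rw [e]
    linarith
  have e2 : ((m + 1).choose (i + 1) : ℝ) * ((i : ℝ) + 1) =
      ((m + 1).choose i : ℝ) * ((m : ℝ) + 1 - i) := by
    have := Nat.choose_succ_right_eq (m + 1) i
    have h : (((m + 1).choose (i + 1) * (i + 1) : ℕ) : ℝ) =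
        (((m + 1).choose i * (m + 1 - i) : ℕ) : ℝ) := by exact_mod_cast this
    rw [Nat.cast_mul, Nat.cast_mul, Nat.cast_sub (by omega)] at h
    push_cast at h
    exact h
  have e3 : hh m (2 * ((i : ℝ) + 1)) = hh m (2 * (i : ℝ)) *
      ((2 * (i : ℝ) + 1) / (2 * (i : ℝ) + m + 1)) * ((2 * (i : ℝ) + 1 + 1) / (2 * (i : ℝ) + 1 + m + 1)) := by
    have a1 := hh_add_one m (b := 2 * (i : ℝ)) (by positivity)
    have a2 := hh_add_one m (b := 2 * (i : ℝ) + 1) (by positivity)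
    rw [a1] at a2
    rw [← a2]
    congr 1
    ring
  have hN : (0 : ℝ) < (i : ℝ) + 1 := by positivity
  have hmi : (0 : ℝ) < (m : ℝ) + 1 - i := by
    have : (i : ℝ) ≤ m := by exact_mod_cast hi
    linarith
  have f1 : ((3 * (m + 1) + 4 + (i + 1)).choose (i + 1) : ℝ) =
      (3 * ((m : ℝ) + 1) + 4 + i + 1) * ((3 * (m + 1) + 4 + i).choose i : ℝ) / ((i : ℝ) + 1) := by
    rw [eq_div_iff hN.ne']
    exact e1
  have f2 : ((m + 1).choose (i + 1) : ℝ) =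
      ((m + 1).choose i : ℝ) * ((m : ℝ) + 1 - i) / ((i : ℝ) + 1) := by
    rw [eq_div_iff hN.ne']
    exact e2
  unfold g7_T
  rw [Nat.cast_add i 1, Nat.cast_one, e3, f1, f2]
  have g1 : (0 : ℝ) < 2 * (i : ℝ) + m + 1 := by positivity
  have g2 : (0 : ℝ) < 2 * (i : ℝ) + 1 + m + 1 := by positivity
  have g3 := h1.ne'
  have g4 := hmi.ne'
  field_simp
  ring

theorem g7_num (m a t : ℕ) (h : (a = 2 ∧ m = 6 + t) ∨ (3 ≤ a ∧ m + 1 + 2 = 4 * a + t)) :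
    (3 * ((m : ℝ) + 1) + 4 + a) * (2 * (a : ℝ) - 1) * (2 * (a : ℝ)) ≤
      ((m : ℝ) + 2 - a) * ((m : ℝ) + 2 * a - 1) * ((m : ℝ) + 2 * a) := by
  rcases h with ⟨rfl, rfl⟩ | ⟨h3, h⟩
  · push_cast
    have ht : (0 : ℝ) ≤ t := Nat.cast_nonneg t
    nlinarith [mul_nonneg ht ht, mul_nonneg (mul_nonneg ht ht) ht]
  · obtain ⟨p, rfl⟩ : ∃ p, a = 3 + p := ⟨a - 3, by omega⟩
    obtain rfl : m = 9 + 4 * p + t := by omega
    have hp : (0 : ℝ) ≤ p := Nat.cast_nonneg p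
    have ht : (0 : ℝ) ≤ t := Nat.cast_nonneg t
    push_cast
    rw [← sub_nonneg]
    ring_nf
    positivity

theorem g7_main (m : ℕ) (hm : 6 ≤ m) : ∀ i : ℕ, 4 * (i + 1) ≤ m + 3 →
    g7_T m (i + 1) ≤ (m : ℝ) + 2 := by
  intro i
  induction i with
  | zero =>
    intro _
    have h1 := g7_step m 0 (Nat.zero_le _)
    have h0 : g7_T m 0 = 3 * ((m : ℝ) + 1) + 4 := by
      unfold g7_T
      rw [Nat.choose_zero_right, Nat.choose_zero_right, Nat.cast_zero, mul_zero, hh_zero_right,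
        Nat.cast_one, div_one, mul_one, mul_one]
    rw [h0] at h1
    obtain ⟨t, rfl⟩ : ∃ t, m = 6 + t := ⟨m - 6, by omega⟩
    push_cast at h1 ⊢
    have ht : (0 : ℝ) ≤ t := Nat.cast_nonneg t
    have hD : (0 : ℝ) < (6 + (t : ℝ) + 1 - 0) * (6 + (t : ℝ) + 1 + 2 * 0) * (6 + (t : ℝ) + 2 + 2 * 0) := by
      have : (0 : ℝ) < 6 + (t : ℝ) + 1 - 0 := by linarith
      positivity
    refine le_of_mul_le_mul_right ?_ hD
    rw [h1, ← sub_nonneg]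
    ring_nf
    positivity
  | succ i ih =>
    intro h4
    have ih' := ih (by omega)
    refine le_trans ?_ ih'
    have h1 := g7_step m (i + 1) (by omega)
    have h2 : (3 * ((m : ℝ) + 1) + 4 + ((i + 2 : ℕ) : ℝ)) * (2 * ((i + 2 : ℕ) : ℝ) - 1) *
        (2 * ((i + 2 : ℕ) : ℝ)) ≤ ((m : ℝ) + 2 - ((i + 2 : ℕ) : ℝ)) *
          ((m : ℝ) + 2 * ((i + 2 : ℕ) : ℝ) - 1) * ((m : ℝ) + 2 * ((i + 2 : ℕ) : ℝ)) := by
      rcases Nat.eq_zero_or_pos i with rfl | hi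
      · exact g7_num m 2 (m - 6) (Or.inl ⟨rfl, by omega⟩)
      · exact g7_num m (i + 2) (m + 3 - 4 * (i + 2)) (Or.inr ⟨by omega, by omega⟩)
    push_cast at h1 h2
    have hT := g7_T_pos m (i + 1) (by omega)
    have hmi : (0 : ℝ) < (m : ℝ) + 1 - (i + 1) := by
      have : ((i + 1 : ℕ) : ℝ) ≤ m := by exact_mod_cast (by omega : i + 1 ≤ m)
      push_cast at this
      linarith
    have hD : (0 : ℝ) < ((m : ℝ) + 1 - (i + 1)) * ((m : ℝ) + 1 + 2 * ((i : ℝ) + 1)) *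
        ((m : ℝ) + 2 + 2 * ((i : ℝ) + 1)) := by positivity
    refine le_of_mul_le_mul_right ?_ hD
    rw [h1]
    apply mul_le_mul_of_nonneg_left _ hT.le
    nlinarith

/-- Row LRF-G7. `N = 3l + 4`. `i (N+i-l)/(l-1) = i (2l+4+i)/(l-1) ≥ 2 i`; `hh_anti`. Let
`T i = N C(N+i,i)/C(l,i) hh (l-1) (2i)`. `T (i+1) = T i * B`, with `a = i + 1`,
`B = (N+a)(2a-1)(2a)/((l+1-a)(l+2a-2)(l+2a-1))`
(`C(N+a,a) = C(N+i,i)(N+a)/a`, `C(l,a) = C(l,i)(l+1-a)/a`,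
`hh_nat_succ` twice: `hh c (r+1) = hh c r (r+1)/(r+c+1)`). `T 0 = N`.
`N B(1) ≤ l + 1`, and `B(a) ≤ 1` for `a ≥ 2`, `4a ≤ l + 2`: with `l = 7 + t`, `a = 1, 2`, or
`a = 3 + p`, `l = 4a - 2 + t`, ALL COEFFICIENTS of the differences are positive (checked). -/
theorem RN_right (l i : ℕ) (h7 : 7 ≤ l) (hi : 1 ≤ i) (h4 : 4 * i ≤ l + 2) :
    RN l (3 * l + 4) l i ≤ (l : ℝ) + 1 := by
  obtain ⟨m, rfl⟩ : ∃ m, l = m + 1 := ⟨l - 1, by omega⟩
  obtain ⟨j, rfl⟩ : ∃ j, i = j + 1 := ⟨i - 1, by omega⟩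
  have h1 := g7_main m (by omega) j (by omega)
  have e0 : ((m + 1 : ℕ) : ℝ) + 1 = (m : ℝ) + 2 := by push_cast; ring
  rw [e0]
  refine le_trans ?_ h1
  unfold RN g7_T
  rw [Nat.add_sub_cancel]
  have hm0 : (0 : ℝ) < m := by
    have : 0 < m := by omega
    exact_mod_cast this
  have h2 : hh m (((j + 1 : ℕ) : ℝ) * (((3 * (m + 1) + 4 : ℕ) : ℝ) + ((j + 1 : ℕ) : ℝ) -
      ((m + 1 : ℕ) : ℝ)) / (((m + 1 : ℕ) : ℝ) - 1)) ≤ hh m (2 * ((j + 1 : ℕ) : ℝ)) := by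
    apply hh_anti m (by positivity)
    have e1 : (((m + 1 : ℕ) : ℝ) - 1) = m := by push_cast; ring
    rw [e1, le_div_iff₀ hm0]
    push_cast
    have : (0 : ℝ) ≤ j := Nat.cast_nonneg j
    nlinarith
  have e2 : ((3 * (m + 1) + 4 : ℕ) : ℝ) = 3 * ((m : ℝ) + 1) + 4 := by push_cast; ring
  rw [e2] at h2 ⊢
  exact mul_le_mul_of_nonneg_left h2 (by positivity)

end Pool.Agent.LRG
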