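import Mathlib
import Pool.Agent.LRG.G3

set_option autoImplicit false

namespace Pool.Agent.LRG

open Finset
open Pool.Agent.LRE Pool.Agent.LRT

/-- the blocks -/
noncomputable def BB8 (l a : ℕ) : ℝ :=
  3 * (3 * (l : ℝ) + 4 + a) * (3 * (a : ℝ) - 2) * (3 * (a : ℝ) - 1) /
    (((l : ℝ) + 3 * a - 3) * ((l : ℝ) + 3 * a - 2) * ((l : ℝ) + 3 * a - 1))

theorem BB8_pos (l a : ℕ) (hl : 1 ≤ l) (ha : 1 ≤ a) : 0 < BB8 l a := by
  have h1 : (1 : ℝ) ≤ l := by exact_mod_cast hl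
  have h2 : (1 : ℝ) ≤ a := by exact_mod_cast ha
  unfold BB8
  apply div_pos
  · apply mul_pos
    · apply mul_pos
      · positivity
      · linarith
    · linarith
  · apply mul_pos
    · apply mul_pos <;> linarith
    · linarith

/-- Row LRF-G8a. With `u = 2 + p`, `v = 2 + q`, `l = 4(u+v) - 6 + t` and the denominators cleared, ALL
COEFFICIENTS (84 terms) of the difference in `p, q, t` are positive (checked). -/
theorem g8_pair (l u v : ℕ) (hu : 2 ≤ u) (hv : 2 ≤ v) (hl : 4 * (u + v) ≤ l + 6) :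
    BB8 l u * BB8 l v ≤ 1 := by
  obtain ⟨p, rfl⟩ := Nat.exists_eq_add_of_le hu
  obtain ⟨q, rfl⟩ := Nat.exists_eq_add_of_le hv
  obtain ⟨t, ht⟩ := Nat.exists_eq_add_of_le hl
  have hl' : l = 10 + 4 * p + 4 * q + t := by omega
  subst hl'
  unfold BB8
  push_cast
  have hp : (0 : ℝ) ≤ p := Nat.cast_nonneg p
  have hq : (0 : ℝ) ≤ q := Nat.cast_nonneg q
  have ht0 : (0 : ℝ) ≤ t := Nat.cast_nonneg t
  generalize (p : ℝ) = p at *
  generalize (q : ℝ) = q at *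
  generalize (t : ℝ) = t at *
  have d1 : 0 < (10 + 4 * p + 4 * q + t + 3 * (2 + p) - 3) *
      (10 + 4 * p + 4 * q + t + 3 * (2 + p) - 2) * (10 + 4 * p + 4 * q + t + 3 * (2 + p) - 1) := by
    apply mul_pos
    · apply mul_pos <;> linarith
    · linarith
  have d2 : 0 < (10 + 4 * p + 4 * q + t + 3 * (2 + q) - 3) *
      (10 + 4 * p + 4 * q + t + 3 * (2 + q) - 2) * (10 + 4 * p + 4 * q + t + 3 * (2 + q) - 1) := by
    apply mul_pos
    · apply mul_pos <;> linarith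
    · linarith
  rw [div_mul_div_comm, div_le_one (mul_pos d1 d2), ← sub_nonneg]
  ring_nf
  positivity

/-- Row LRF-G8b. `i = 3 + p`, `l = 4i - 2 + t`, or `i = 2`, `l = 8 + t`: all coefficients of the
difference are positive (checked). -/
theorem g8_ends (l i : ℕ) (hi : 2 ≤ i) (h8 : 8 ≤ l) (h4 : 4 * i ≤ l + 2) :
    (3 * (l : ℝ) + 4) * (BB8 l 1 * BB8 l i) ≤ (l : ℝ) + 1 := by
  rcases (show i = 2 ∨ 3 ≤ i by omega) with rfl | h3
  · obtain ⟨t, rfl⟩ := Nat.exists_eq_add_of_le h8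
    unfold BB8
    push_cast
    have ht0 : (0 : ℝ) ≤ t := Nat.cast_nonneg t
    generalize (t : ℝ) = t at *
    rw [div_mul_div_comm, ← mul_div_assoc, div_le_iff₀ (by
      apply mul_pos
      · apply mul_pos
        · apply mul_pos <;> linarith
        · linarith
      · apply mul_pos
        · apply mul_pos <;> linarith
        · linarith), ← sub_nonneg]
    ring_nf
    positivity
  · obtain ⟨p, rfl⟩ := Nat.exists_eq_add_of_le h3
    obtain ⟨t, ht⟩ := Nat.exists_eq_add_of_le h4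
    have hl' : l = 10 + 4 * p + t := by omega
    subst hl'
    unfold BB8
    push_cast
    have hp : (0 : ℝ) ≤ p := Nat.cast_nonneg p
    have ht0 : (0 : ℝ) ≤ t := Nat.cast_nonneg t
    generalize (p : ℝ) = p at *
    generalize (t : ℝ) = t at *
    rw [div_mul_div_comm, ← mul_div_assoc, div_le_iff₀ (by
      apply mul_pos
      · apply mul_pos
        · apply mul_pos <;> linarith
        · linarith
      · apply mul_pos
        · apply mul_pos <;> linarith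
        · linarith), ← sub_nonneg]
    ring_nf
    positivity

/-- Row LRF-G8c. `l = 7 + t`: all coefficients positive (checked). -/
theorem g8_one (l : ℕ) (h7 : 7 ≤ l) : (3 * (l : ℝ) + 4) * BB8 l 1 ≤ (l : ℝ) + 1 := by
  obtain ⟨t, rfl⟩ := Nat.exists_eq_add_of_le h7
  unfold BB8
  push_cast
  have ht0 : (0 : ℝ) ≤ t := Nat.cast_nonneg t
  generalize (t : ℝ) = t at *
  rw [← mul_div_assoc, div_le_iff₀ (by
    apply mul_pos
    · apply mul_pos <;> linarith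
    · linarith), ← sub_nonneg]
  ring_nf
  positivity

/-- Row LRF-G8d. Strong induction on `v - u`: `∏_{a=u}^{v} B a = B u * B v * ∏_{a=u+1}^{v-1} B a`
(`u < v`), `g8_pair`; for `u = v`, `B u * B u ≤ 1` gives `B u ≤ 1`. (`B a > 0`.)
Here the product is over `a = u + k`, `k < n`. -/
theorem g8_prod (l : ℕ) : ∀ n u : ℕ, 2 ≤ u → 4 * (2 * u + n - 1) ≤ l + 6 →
    ∏ k ∈ range n, BB8 l (u + k) ≤ 1 := by
  intro n
  induction n using Nat.strong_induction_on with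
  | _ n ih =>
    intro u hu hl
    rcases (show n = 0 ∨ n = 1 ∨ 2 ≤ n by omega) with rfl | rfl | hn
    · simp
    · have h1 := g8_pair l u u hu hu (by omega)
      have h2 := BB8_pos l u (by omega) (by omega)
      rw [prod_range_one, add_zero]
      nlinarith
    · obtain ⟨r, rfl⟩ := Nat.exists_eq_add_of_le' hn
      have h1 := ih r (by omega) (u + 1) (by omega) (by omega)
      have h2 := g8_pair l u (u + (r + 1)) hu (by omega) (by omega)
      have p1 := BB8_pos l u (by omega) (by omega)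
      have p2 := BB8_pos l (u + (r + 1)) (by omega) (by omega)
      rw [show r + 2 = (r + 1) + 1 by ring, prod_range_succ, prod_range_succ', add_zero]
      have e : ∏ k ∈ range r, BB8 l (u + (k + 1)) = ∏ k ∈ range r, BB8 l (u + 1 + k) :=
        prod_congr rfl fun k _ => by rw [show u + (k + 1) = u + 1 + k by ring]
      rw [e]
      calc (∏ k ∈ range r, BB8 l (u + 1 + k)) * BB8 l u * BB8 l (u + (r + 1))
          = (∏ k ∈ range r, BB8 l (u + 1 + k)) * (BB8 l u * BB8 l (u + (r + 1))) := by ring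
        _ ≤ 1 * (BB8 l u * BB8 l (u + (r + 1))) :=
            mul_le_mul_of_nonneg_right h1 (mul_pos p1 p2).le
        _ ≤ 1 := by rw [one_mul]; exact h2

/-- the product formula -/
theorem g8_T (l : ℕ) (hl : 1 ≤ l) (i : ℕ) :
    (3 * (l : ℝ) + 4) * (((3 * l + 4 + i).choose i : ℕ) : ℝ) * hh (l - 1) ((3 * i : ℕ) : ℝ) =
      (3 * (l : ℝ) + 4) * ∏ k ∈ range i, BB8 l (k + 1) := by
  have hlR : (1 : ℝ) ≤ l := by exact_mod_cast hl
  have hc : ((l - 1 : ℕ) : ℝ) = (l : ℝ) - 1 := by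
    rw [Nat.cast_sub hl]; simp
  induction i with
  | zero => simp [hh_zero_right]
  | succ i ih =>
    rw [prod_range_succ, ← mul_assoc, ← ih]
    have h1 : hh (l - 1) ((3 * (i + 1) : ℕ) : ℝ) = hh (l - 1) ((3 * i : ℕ) : ℝ) *
        ((((3 * i : ℕ) : ℝ) + 1) / (((3 * i : ℕ) : ℝ) + ((l - 1 : ℕ) : ℝ) + 1)) *
        ((((3 * i + 1 : ℕ) : ℝ) + 1) / (((3 * i + 1 : ℕ) : ℝ) + ((l - 1 : ℕ) : ℝ) + 1)) *
        ((((3 * i + 2 : ℕ) : ℝ) + 1) / (((3 * i + 2 : ℕ) : ℝ) + ((l - 1 : ℕ) : ℝ) + 1)) := by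
      rw [show 3 * (i + 1) = (3 * i + 2) + 1 by ring, hh_nat_succ,
        show 3 * i + 2 = (3 * i + 1) + 1 by ring, hh_nat_succ, hh_nat_succ]
    have h2 : (((3 * l + 4 + (i + 1)).choose (i + 1) : ℕ) : ℝ) =
        (((3 * l + 4 + i).choose i : ℕ) : ℝ) * ((3 * (l : ℝ) + 4 + (i + 1)) / ((i : ℝ) + 1)) := by
      have h3 := Nat.add_one_mul_choose_eq (3 * l + 4 + i) i
      have h4 : ((3 * l + 4 + i + 1 : ℕ) : ℝ) * (((3 * l + 4 + i).choose i : ℕ) : ℝ) =
          (((3 * l + 4 + i + 1).choose (i + 1) : ℕ) : ℝ) * ((i + 1 : ℕ) : ℝ) := by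
        exact_mod_cast h3
      rw [show 3 * l + 4 + (i + 1) = 3 * l + 4 + i + 1 by ring, ← mul_div_assoc,
        eq_div_iff (by positivity)]
      push_cast at h4 ⊢
      linarith
    rw [h1, h2, hc]
    unfold BB8
    push_cast
    have e1 : (l : ℝ) + 3 * ((i : ℝ) + 1) - 3 = 3 * (i : ℝ) + ((l : ℝ) - 1) + 1 := by ring
    have e2 : (l : ℝ) + 3 * ((i : ℝ) + 1) - 2 = 3 * (i : ℝ) + 1 + ((l : ℝ) - 1) + 1 := by ring
    have e3 : (l : ℝ) + 3 * ((i : ℝ) + 1) - 1 = 3 * (i : ℝ) + 2 + ((l : ℝ) - 1) + 1 := by ring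
    have e4 : 3 * ((i : ℝ) + 1) - 2 = 3 * (i : ℝ) + 1 := by ring
    have e5 : 3 * ((i : ℝ) + 1) - 1 = 3 * (i : ℝ) + 1 + 1 := by ring
    rw [e1, e2, e3, e4, e5]
    have n1 : 3 * (i : ℝ) + ((l : ℝ) - 1) + 1 ≠ 0 := by
      have : (0 : ℝ) ≤ i := Nat.cast_nonneg i
      linarith
    have n2 : 3 * (i : ℝ) + 1 + ((l : ℝ) - 1) + 1 ≠ 0 := by
      have : (0 : ℝ) ≤ i := Nat.cast_nonneg i
      linarith
    have n3 : 3 * (i : ℝ) + 2 + ((l : ℝ) - 1) + 1 ≠ 0 := by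
      have : (0 : ℝ) ≤ i := Nat.cast_nonneg i
      linarith
    have n4 : (i : ℝ) + 1 ≠ 0 := by positivity
    generalize 3 * (i : ℝ) + ((l : ℝ) - 1) + 1 = A at *
    generalize 3 * (i : ℝ) + 1 + ((l : ℝ) - 1) + 1 = B at *
    generalize 3 * (i : ℝ) + 2 + ((l : ℝ) - 1) + 1 = C at *
    generalize hh (l - 1) (3 * (i : ℝ)) = H
    generalize (((3 * l + 4 + i).choose i : ℕ) : ℝ) = K
    field_simp
    ring

/-- Row LRF-G8e. `N = 3l + 4`, `s = i`: `i (N+i-i)/(l-1) ≥ 3 i`; `hh_anti`. Let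
`T i = N C(N+i,i) hh (l-1) (3i)`. `T i = N ∏_{a=1}^{i} BB8 l a` (`C(N+a,a) = C(N+a-1,a-1)(N+a)/a`,
`hh_nat_succ` three times: `hh c (r+1) = hh c r (r+1)/(r+c+1)`, `c = l - 1`).
`i = 1`: `g8_one`. `i ≥ 2`: `T i = N (B 1 B i) ∏_{a=2}^{i-1} B a`, `g8_prod` with `u = 2`,
`n = i - 2` (`4 (4 + i - 2 - 1) = 4i + 4 ≤ l + 6`), `g8_ends`. -/
theorem RN_left (l i : ℕ) (h7 : 7 ≤ l) (hi : 1 ≤ i) (h4 : 4 * i ≤ l + 2) (h8 : 8 ≤ l ∨ i = 1) :
    RN l (3 * l + 4) i i ≤ (l : ℝ) + 1 := by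
  have hlR : (7 : ℝ) ≤ l := by exact_mod_cast h7
  have hiR : (1 : ℝ) ≤ i := by exact_mod_cast hi
  have h1 : RN l (3 * l + 4) i i ≤
      (3 * (l : ℝ) + 4) * (((3 * l + 4 + i).choose i : ℕ) : ℝ) *
        hh (l - 1) ((3 * i : ℕ) : ℝ) := by
    unfold RN
    rw [Nat.choose_self, Nat.cast_one, div_one]
    push_cast
    apply mul_le_mul_of_nonneg_left _ (by positivity)
    apply hh_anti _ (by positivity)
    rw [le_div_iff₀ (by linarith)]
    nlinarith
  refine h1.trans ?_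
  rw [g8_T l (by omega) i]
  rcases (show i = 1 ∨ 2 ≤ i by omega) with rfl | h2
  · rw [prod_range_one]
    exact g8_one l h7
  · obtain ⟨r, rfl⟩ := Nat.exists_eq_add_of_le' h2
    have hl8 : 8 ≤ l := by omega
    have h3 := g8_prod l r 2 le_rfl (by omega)
    have h5 := g8_ends l (r + 2) h2 hl8 h4
    have p1 := BB8_pos l 1 (by omega) le_rfl
    have p2 := BB8_pos l (r + 2) (by omega) (by omega)
    rw [show r + 2 = (r + 1) + 1 by ring, prod_range_succ, prod_range_succ', zero_add]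
    have e : ∏ k ∈ range r, BB8 l (k + 1 + 1) = ∏ k ∈ range r, BB8 l (2 + k) :=
      prod_congr rfl fun k _ => by rw [show k + 1 + 1 = 2 + k by ring]
    rw [e]
    rw [show r + 1 + 1 = r + 2 by ring]
    have e2 : (3 * (l : ℝ) + 4) * ((∏ k ∈ range r, BB8 l (2 + k)) * BB8 l 1 * BB8 l (r + 2)) =
        (∏ k ∈ range r, BB8 l (2 + k)) * ((3 * (l : ℝ) + 4) * (BB8 l 1 * BB8 l (r + 2))) := by
      ring
    rw [e2]
    calc (∏ k ∈ range r, BB8 l (2 + k)) * ((3 * (l : ℝ) + 4) * (BB8 l 1 * BB8 l (r + 2)))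
        ≤ 1 * ((3 * (l : ℝ) + 4) * (BB8 l 1 * BB8 l (r + 2))) := by
          apply mul_le_mul_of_nonneg_right h3
          positivity
      _ ≤ (l : ℝ) + 1 := by rw [one_mul]; exact h5

end Pool.Agent.LRG
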