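import Mathlib
import Pool.Agent.LRG.G5
import Pool.Agent.LRG.G6
import Pool.Agent.LRG.G7
import Pool.Agent.LRG.G8

set_option autoImplicit false

namespace Pool.Agent.LRG

open Finset
open Pool.Agent.LRE Pool.Agent.LRT

theorem RN_node (l N s i : ℕ) (h7 : 7 ≤ l) (hi : 1 ≤ i) (his : i ≤ s) (hsl : s ≤ l)
    (hN : 3 * l + 4 ≤ N) (h4 : 4 * i ≤ l + 2) (h8 : 8 ≤ l ∨ i = 1) :
    RN l N s i ≤ (l : ℝ) + 1 := by
  induction N, hN using Nat.le_induction with
  | base =>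
    have h1 := conv_max (fun s => RN l (3 * l + 4) s i) i l
      (fun c hc1 hc2 => RN_pos l (3 * l + 4) c i (by omega) (by omega) hc1 (by omega))
      (fun c hc1 hc2 => RN_conv l (3 * l + 4) c i (by omega) hc1 (by omega)) s his hsl
    exact h1.trans (max_le (RN_left l i h7 hi h4 h8) (RN_right l i h7 hi h4))
  | succ N hN ih => exact (RN_anti l N s i h7 hi his hsl hN h4).trans ih

theorem RN_seven : RN 7 25 6 2 ≤ 8 := by
  unfold RN
  have h1 : ((2 : ℕ) : ℝ) * (((25 : ℕ) : ℝ) + ((2 : ℕ) : ℝ) - ((6 : ℕ) : ℝ)) / (((7 : ℕ) : ℝ) - 1) = 7 := by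
    norm_num
  have h2 : (25 + 2).choose 2 = 351 := by decide
  have h3 : (6 : ℕ).choose 2 = 15 := by decide
  rw [h1, h2, h3]
  have h4 : hh (7 - 1) (7 : ℝ) = 1 / 1716 := by
    have : (7 : ℕ) - 1 = 6 := rfl
    rw [this]
    simp only [hh_succ, hh_zero]
    norm_num
  rw [h4]
  norm_num

end Pool.Agent.LRG
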