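import Mathlib
import Pool.Agent.LRG.G1
import Pool.Agent.LRG.G9

set_option autoImplicit false

namespace Pool.Agent.LRG

open Finset
open Pool.Agent.MP_f1b527_co
open Pool.Agent.LRE Pool.Agent.LRT

/-- a quotient of factorials -/
theorem g10_fact (N s i : ℕ) (his : i ≤ s) :
    ((s - i).factorial : ℝ) * ((N + i).factorial : ℝ) =
      (N.factorial : ℝ) * (s.factorial : ℝ) * (((N + i).choose i : ℝ) / (s.choose i : ℝ)) := by
  have h1 := Nat.choose_mul_factorial_mul_factorial his
  have h2 := Nat.choose_mul_factorial_mul_factorial (Nat.le_add_left i N)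
  rw [Nat.add_sub_cancel] at h2
  have h3 : (s.choose i : ℝ) * (i.factorial : ℝ) * ((s - i).factorial : ℝ) = s.factorial := by
    exact_mod_cast h1
  have h4 : ((N + i).choose i : ℝ) * (i.factorial : ℝ) * (N.factorial : ℝ) = (N + i).factorial := by
    exact_mod_cast h2
  have h5 : (s.choose i : ℝ) ≠ 0 := by
    have := Nat.choose_pos his
    positivity
  rw [← h3, ← h4]
  field_simp

/-- the quotient of binomials -/
theorem g10_choose (N s j : ℕ) (his : j + 1 ≤ s) :
    ((N + (j + 1)).choose (j + 1) : ℝ) / (s.choose (j + 1) : ℝ) * ((s : ℝ) - j) =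
      ((N + j).choose j : ℝ) / (s.choose j : ℝ) * ((N : ℝ) + (j + 1)) := by
  have h1 : ((N : ℝ) + (j + 1)) * ((N + j).choose j : ℝ) =
      ((N + (j + 1)).choose (j + 1) : ℝ) * ((j : ℝ) + 1) := by
    have := Nat.add_one_mul_choose_eq (N + j) j
    have h : ((N + j + 1 : ℕ) : ℝ) * ((N + j).choose j : ℝ) =
        ((N + j + 1).choose (j + 1) : ℝ) * ((j + 1 : ℕ) : ℝ) := by exact_mod_cast this
    push_cast at h
    rw [← add_assoc, ← add_assoc]
    exact h
  have h2 : (s.choose (j + 1) : ℝ) * ((j : ℝ) + 1) = (s.choose j : ℝ) * ((s : ℝ) - j) := by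
    have := Nat.choose_succ_right_eq s j
    have h : (s.choose (j + 1) : ℝ) * ((j + 1 : ℕ) : ℝ) = (s.choose j : ℝ) * ((s - j : ℕ) : ℝ) := by
      exact_mod_cast this
    rw [Nat.cast_sub (by omega)] at h
    push_cast at h
    exact h
  have h3 : (s.choose (j + 1) : ℝ) ≠ 0 := by
    have := Nat.choose_pos his
    positivity
  have h4 : (s.choose j : ℝ) ≠ 0 := by
    have := Nat.choose_pos (show j ≤ s by omega)
    positivity
  have h5 : (j : ℝ) + 1 ≠ 0 := by positivity
  rw [div_mul_eq_mul_div, div_mul_eq_mul_div, div_eq_div_iff h3 h4]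
  have h6 : ((N + (j + 1)).choose (j + 1) : ℝ) * ((s : ℝ) - j) * (s.choose j : ℝ) * ((j : ℝ) + 1) =
      ((N + j).choose j : ℝ) * ((N : ℝ) + (j + 1)) * (s.choose (j + 1) : ℝ) * ((j : ℝ) + 1) := by
    calc ((N + (j + 1)).choose (j + 1) : ℝ) * ((s : ℝ) - j) * (s.choose j : ℝ) * ((j : ℝ) + 1)
        = (((N + (j + 1)).choose (j + 1) : ℝ) * ((j : ℝ) + 1)) *
          ((s.choose j : ℝ) * ((s : ℝ) - j)) := by ring
      _ = (((N : ℝ) + (j + 1)) * ((N + j).choose j : ℝ)) *
          ((s.choose (j + 1) : ℝ) * ((j : ℝ) + 1)) := by rw [h1, h2]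
      _ = _ := by ring
  exact mul_right_cancel₀ h5 h6

/-- the value at the right end of the first interval -/
theorem g10_one (l N : ℕ) (h7 : 7 ≤ l) (hN : 3 * l + 4 ≤ N) :
    (N : ℝ) * (((N : ℝ) + 1) / l * hh (l - 1) (((N + 1 - l : ℕ) : ℝ) / ((l : ℝ) - 1))) ≤
      (l : ℝ) + 1 := by
  have h := RN_node l N l 1 h7 le_rfl (by omega) le_rfl hN (by omega) (Or.inr rfl)
  refine le_trans (le_of_eq ?_) h
  unfold RN
  rw [Nat.choose_one_right, Nat.choose_one_right, Nat.cast_sub (by omega)]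
  push_cast
  rw [one_mul]
  ring

/-- Row LRF-G10. Let `E = hh (l-1) (κ/(l-1))`. First `l ≥ 7` (`2κ ≤ l(l-1)`, `κ > N - l ≥ 2l + 4`).
* `κ > s N` (in particular `s = 0`, or `s ≥ 1`): `V = (N+s)!` (`UB_one (N+s) 0`),
  `= N! s! C(N+s,s)` (`Nat.add_choose_mul_factorial_mul_factorial`). If `s ≥ 1`:
  `N C(N+s,s) E ≤ RN l N s s` (`hh_anti`, `s (N+s-s) = s N ≤ κ`), `RN_node` (`4s ≤ l + 2` and `8 ≤ l`
  because `s (3l+4) < κ ≤ l(l-1)/2`). If `s = 0`: `N E ≤ RN l N l 1 ≤ l + 1`, as
  `RN l N l 1 = N (N+1)/l hh (l-1) ((N+1-l)/(l-1))`, `κ ≥ N + 1 - l`.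
* `κ ≤ s N`, `s ≥ 1`: let `i ≥ 1` be minimal with `κ ≤ i (N+i-s)` (`i = s` has this property; use
  `Nat.find`); `UB_drop s N κ i`, `V = (s-i)! (N+i)! (s-i+1)/(A - κ)`, `A = i (N+i-s) + (s-i+1)`;
  `(s-i)! (N+i)! C(s,i) = N! s! C(N+i,i)`. So `V N E = N! s! * N C(N+i,i)/C(s,i) (s-i+1) E/(A-κ)`.
  `conv_kappa` with `b = i (N+i-s)` (where `A - b = s-i+1`: the value is `RN l N s i`) and
  - `i = 1`: `a = N + 1 - l`: `A - a = l`, `C(N+1,1)/C(s,1) · s = N + 1`: the value is `RN l N l 1`;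
  - `i ≥ 2`: `a = (i-1)(N+i-1-s) < κ`: `A - a = N + i`, and
    `C(N+i,i)/C(s,i) (s-i+1)/(N+i) = C(N+i-1,i-1)/C(s,i-1)`: the value is `RN l N s (i-1)`.
  All are `≤ l + 1` by `RN_node`: `4 i ≤ l + 2`, because `(i-1)(2l+4+i) ≤ (i-1)(N+i-1-s) < κ ≤
  l(l-1)/2`. If `l = 7` and `i ≥ 2` then `i = 2`, `N + 1 - s < κ ≤ 21`, so `N = 25, s = 6`:
  `RN_seven`. -/
theorem num_C2 (l N s κ : ℕ) (hsl : s + 1 ≤ l) (hN : 3 * l + 4 ≤ N) (h1 : N < κ + l)
    (h2 : 2 * κ ≤ l * (l - 1)) :
    ∃ V : ℝ, UB (N + s) (s * N - κ) V ∧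
      V * ((N : ℝ) * hh (l - 1) ((κ : ℝ) / ((l : ℝ) - 1))) ≤
        (N.factorial : ℝ) * (s.factorial : ℝ) * ((l : ℝ) + 1) := by
  have h7 : 7 ≤ l := by
    by_contra hcon
    have hl6 : l ≤ 6 := by omega
    interval_cases l <;> omega
  obtain ⟨l', rfl⟩ : ∃ l', l = l' + 1 := ⟨l - 1, by omega⟩
  rw [Nat.add_sub_cancel] at h2
  have hlR : (7 : ℝ) ≤ ((l' + 1 : ℕ) : ℝ) := by exact_mod_cast h7
  have hl1 : (0 : ℝ) < ((l' + 1 : ℕ) : ℝ) - 1 := by linarith
  have hN0 : (0 : ℝ) < N := by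
    have : 0 < N := by omega
    exact_mod_cast this
  by_cases hA : s = 0 ∨ s * N < κ
  · refine ⟨((N + s).factorial : ℝ), ?_, ?_⟩
    · have h3 := UB_one (N + s) 0
      have h4 : s * N - κ = 0 := by
        rcases hA with rfl | hA
        · simp
        · omega
      rw [h4]
      simpa using h3
    · rcases Nat.eq_zero_or_pos s with rfl | hs
      · have h5 := g10_one (l' + 1) N h7 hN
        have h6 : hh (l' + 1 - 1) ((κ : ℝ) / (((l' + 1 : ℕ) : ℝ) - 1)) ≤
            hh (l' + 1 - 1) (((N + 1 - (l' + 1) : ℕ) : ℝ) / (((l' + 1 : ℕ) : ℝ) - 1)) := by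
          apply hh_anti _ (by positivity)
          apply div_le_div_of_nonneg_right _ hl1.le
          have : N + 1 - (l' + 1) ≤ κ := by omega
          exact_mod_cast this
        have h8 : hh (l' + 1 - 1) ((κ : ℝ) / (((l' + 1 : ℕ) : ℝ) - 1)) ≤
            ((N : ℝ) + 1) / ((l' + 1 : ℕ) : ℝ) *
            hh (l' + 1 - 1) (((N + 1 - (l' + 1) : ℕ) : ℝ) / (((l' + 1 : ℕ) : ℝ) - 1)) := by
          have h9 : 1 ≤ ((N : ℝ) + 1) / ((l' + 1 : ℕ) : ℝ) := by
            rw [one_le_div (by linarith)]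
            have : l' + 1 ≤ N + 1 := by omega
            exact_mod_cast this
          have h10 : 0 < hh (l' + 1 - 1)
              (((N + 1 - (l' + 1) : ℕ) : ℝ) / (((l' + 1 : ℕ) : ℝ) - 1)) :=
            hh_pos _ (by positivity)
          nlinarith
        rw [add_zero, Nat.factorial_zero, Nat.cast_one, mul_one]
        apply mul_le_mul_of_nonneg_left _ (by positivity)
        exact (mul_le_mul_of_nonneg_left h8 hN0.le).trans h5
      · have hA' : s * N < κ := by
          rcases hA with hA | hA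
          · omega
          · exact hA
        have h25 : s * (3 * (l' + 1) + 4) ≤ s * N := Nat.mul_le_mul_left _ hN
        have h8 : 8 ≤ l' + 1 := by
          by_contra hcon
          have : l' = 6 := by omega
          subst this
          omega
        have h4s : 4 * s ≤ l' + 1 + 2 := by
          by_contra hcon
          have : l' + 4 ≤ 4 * s := by omega
          nlinarith
        have h5 := RN_node (l' + 1) N s s h7 hs le_rfl (by omega) hN h4s (Or.inl h8)
        have h6 : (N : ℝ) * ((N + s).choose s : ℝ) *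
            hh (l' + 1 - 1) ((κ : ℝ) / (((l' + 1 : ℕ) : ℝ) - 1)) ≤ RN (l' + 1) N s s := by
          unfold RN
          rw [Nat.choose_self, Nat.cast_one, div_one]
          apply mul_le_mul_of_nonneg_left _ (by positivity)
          have e : (s : ℝ) * ((N : ℝ) + s - s) = ((s * N : ℕ) : ℝ) := by push_cast; ring
          rw [e]
          apply hh_anti _ (by positivity)
          apply div_le_div_of_nonneg_right _ hl1.le
          exact_mod_cast hA'.le
        have h9 := g10_fact N s s le_rfl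
        rw [Nat.sub_self, Nat.factorial_zero, Nat.cast_one, one_mul, Nat.choose_self,
          Nat.cast_one, div_one] at h9
        rw [h9]
        calc (N.factorial : ℝ) * (s.factorial : ℝ) * ((N + s).choose s : ℝ) *
            ((N : ℝ) * hh (l' + 1 - 1) ((κ : ℝ) / (((l' + 1 : ℕ) : ℝ) - 1)))
            = (N.factorial : ℝ) * (s.factorial : ℝ) * ((N : ℝ) * ((N + s).choose s : ℝ) *
            hh (l' + 1 - 1) ((κ : ℝ) / (((l' + 1 : ℕ) : ℝ) - 1))) := by ring
          _ ≤ _ := mul_le_mul_of_nonneg_left (h6.trans h5) (by positivity)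
  · push Not at hA
    obtain ⟨hs0, hκ⟩ := hA
    have hs : 1 ≤ s := by omega
    classical
    have hex : ∃ i, 1 ≤ i ∧ κ ≤ i * (N + i - s) :=
      ⟨s, hs, by rw [Nat.add_sub_cancel]; exact hκ⟩
    obtain ⟨i, ⟨hi, hκi⟩, hmin⟩ : ∃ i, (1 ≤ i ∧ κ ≤ i * (N + i - s)) ∧
        ∀ j, j < i → ¬ (1 ≤ j ∧ κ ≤ j * (N + j - s)) :=
      ⟨Nat.find hex, Nat.find_spec hex, fun j hj => Nat.find_min hex hj⟩
    have his : i ≤ s := by
      by_contra hcon
      exact hmin s (by omega) ⟨hs, by rw [Nat.add_sub_cancel]; exact hκ⟩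
    refine ⟨_, UB_drop s N κ i hi his (by omega) hκi, ?_⟩
    have hisR : (i : ℝ) ≤ s := by exact_mod_cast his
    -- the bounds on `i`
    have hbd : 4 * i ≤ l' + 1 + 2 ∧ (8 ≤ l' + 1 ∨ i = 1 ∨ (l' = 6 ∧ N = 25 ∧ s = 6 ∧ i = 2)) := by
      rcases (show i = 1 ∨ 2 ≤ i by omega) with rfl | hi2
      · exact ⟨by omega, Or.inr (Or.inl rfl)⟩
      · obtain ⟨j, rfl⟩ := Nat.exists_eq_add_of_le' hi2
        have h3 := hmin (j + 1) (by omega)
        have h4 : (j + 1) * (N + (j + 1) - s) < κ := by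
          by_contra hcon
          exact h3 ⟨by omega, by omega⟩
        have h5 : 2 * (l' + 1) + 4 + (j + 2) ≤ N + (j + 1) - s := by omega
        have h6 : (j + 1) * (2 * (l' + 1) + 4 + (j + 2)) < κ :=
          lt_of_le_of_lt (Nat.mul_le_mul_left _ h5) h4
        constructor
        · by_contra hcon
          have : l' + 4 ≤ 4 * (j + 2) := by omega
          nlinarith
        · by_cases h8 : 8 ≤ l' + 1
          · exact Or.inl h8
          · right; right
            have hl6 : l' = 6 := by omega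
            subst hl6
            have hκ21 : κ ≤ 21 := by omega
            have hj : j = 0 := by
              by_contra hj
              have : 1 ≤ j := by omega
              nlinarith
            subst hj
            refine ⟨rfl, ?_, ?_, rfl⟩ <;> omega
    have hnode : RN (l' + 1) N s i ≤ ((l' + 1 : ℕ) : ℝ) + 1 := by
      rcases hbd.2 with h8 | h1i | ⟨e1, e2, e3, e4⟩
      · exact RN_node (l' + 1) N s i h7 hi his (by omega) hN hbd.1 (Or.inl h8)
      · exact RN_node (l' + 1) N s i h7 hi his (by omega) hN hbd.1 (Or.inr h1i)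
      · subst e1; subst e2; subst e3; subst e4
        have := RN_seven
        push_cast
        norm_num
        exact this
    set E := hh (l' + 1 - 1) ((κ : ℝ) / (((l' + 1 : ℕ) : ℝ) - 1)) with hE
    have hsub : s ≤ N + i := by omega
    have hbR : ((i * (N + i - s) : ℕ) : ℝ) = (i : ℝ) * ((N : ℝ) + i - s) := by
      rw [Nat.cast_mul, Nat.cast_sub hsub]
      push_cast
      ring
    set A : ℝ := (i : ℝ) * ((N : ℝ) + i - s) + ((s : ℝ) - i + 1) with hAdef
    have hbA : ((i * (N + i - s) : ℕ) : ℝ) < A := by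
      rw [hbR, hAdef]
      linarith
    -- a suitable left end
    obtain ⟨a, haκ, hval⟩ : ∃ a : ℕ, a ≤ κ ∧
        (N : ℝ) * ((((N + i).choose i : ℝ) / (s.choose i : ℝ)) * ((s : ℝ) - i + 1) *
          (hh (l' + 1 - 1) ((a : ℝ) / (((l' + 1 : ℕ) : ℝ) - 1)) / (A - a))) ≤
          ((l' + 1 : ℕ) : ℝ) + 1 := by
      rcases (show i = 1 ∨ 2 ≤ i by omega) with h1i | hi2
      · refine ⟨N + 1 - (l' + 1), by omega, ?_⟩
        subst h1i
        refine le_trans (le_of_eq ?_) (g10_one (l' + 1) N h7 hN)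
        have e1 : A - ((N + 1 - (l' + 1) : ℕ) : ℝ) = ((l' + 1 : ℕ) : ℝ) := by
          rw [hAdef, Nat.cast_sub (by omega)]
          push_cast
          ring
        rw [e1, Nat.choose_one_right, Nat.choose_one_right]
        have hs1 : (s : ℝ) ≠ 0 := by positivity
        have e2 : ((N + 1 : ℕ) : ℝ) / (s : ℝ) * ((s : ℝ) - (1 : ℕ) + 1) = (N : ℝ) + 1 := by
          push_cast
          field_simp
          ring
        rw [e2]
        ring
      · obtain ⟨j, rfl⟩ := Nat.exists_eq_add_of_le' hi2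
        have h3 := hmin (j + 1) (by omega)
        have h4 : (j + 1) * (N + (j + 1) - s) < κ := by
          by_contra hcon
          exact h3 ⟨by omega, by omega⟩
        refine ⟨(j + 1) * (N + (j + 1) - s), h4.le, ?_⟩
        have h8' : 8 ≤ l' + 1 ∨ j + 1 = 1 := by
          rcases hbd.2 with h8 | h1i | ⟨e1, e2, e3, e4⟩
          · exact Or.inl h8
          · omega
          · omega
        have h9 := RN_node (l' + 1) N s (j + 1) h7 (by omega) (by omega) (by omega) hN
          (by omega) h8'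
        refine le_trans (le_of_eq ?_) h9
        have haR : (((j + 1) * (N + (j + 1) - s) : ℕ) : ℝ) =
            ((j : ℝ) + 1) * ((N : ℝ) + ((j : ℝ) + 1) - s) := by
          rw [Nat.cast_mul, Nat.cast_sub (by omega)]
          push_cast
          ring
        have e1 : A - (((j + 1) * (N + (j + 1) - s) : ℕ) : ℝ) = (N : ℝ) + ((j : ℝ) + 1 + 1) := by
          rw [haR, hAdef]
          push_cast
          ring
        rw [e1, haR]
        have h10 := g10_choose N s (j + 1) (by omega)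
        push_cast at h10
        have e3 : (s : ℝ) - ((j + 2 : ℕ) : ℝ) + 1 = (s : ℝ) - ((j : ℝ) + 1) := by push_cast; ring
        rw [e3, show j + 2 = j + 1 + 1 by ring, h10]
        unfold RN
        push_cast
        have hne : (N : ℝ) + ((j : ℝ) + 1 + 1) ≠ 0 := by positivity
        generalize hh (l' + 1 - 1)
          (((j : ℝ) + 1) * ((N : ℝ) + ((j : ℝ) + 1) - s) / ((l' : ℝ) + 1 - 1)) = W
        field_simp
    have hconv := conv_kappa (l' + 1) A a (i * (N + i - s)) κ (by omega) haκ hκi hbA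
    have hc0 : 0 ≤ (N : ℝ) * ((((N + i).choose i : ℝ) / (s.choose i : ℝ)) * ((s : ℝ) - i + 1)) := by
      have : 0 ≤ (s : ℝ) - i + 1 := by linarith
      positivity
    have hbval : (N : ℝ) * ((((N + i).choose i : ℝ) / (s.choose i : ℝ)) * ((s : ℝ) - i + 1) *
          (hh (l' + 1 - 1) (((i * (N + i - s) : ℕ) : ℝ) / (((l' + 1 : ℕ) : ℝ) - 1)) /
            (A - ((i * (N + i - s) : ℕ) : ℝ)))) = RN (l' + 1) N s i := by
      have e1 : A - ((i * (N + i - s) : ℕ) : ℝ) = (s : ℝ) - i + 1 := by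
        rw [hbR, hAdef]
        ring
      have hne : (s : ℝ) - i + 1 ≠ 0 := by linarith
      rw [e1, hbR]
      unfold RN
      generalize hh (l' + 1 - 1) ((i : ℝ) * ((N : ℝ) + i - s) / (((l' + 1 : ℕ) : ℝ) - 1)) = W
      field_simp
    have hmain : (N : ℝ) * ((((N + i).choose i : ℝ) / (s.choose i : ℝ)) * ((s : ℝ) - i + 1) *
        (E / (A - κ))) ≤ ((l' + 1 : ℕ) : ℝ) + 1 := by
      rcases le_max_iff.1 hconv with hc | hc
      · refine le_trans ?_ hval
        have := mul_le_mul_of_nonneg_left hc hc0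
        calc _ = (N : ℝ) * ((((N + i).choose i : ℝ) / (s.choose i : ℝ)) * ((s : ℝ) - i + 1)) *
              (E / (A - κ)) := by ring
          _ ≤ _ := this
          _ = _ := by ring
      · refine le_trans ?_ hnode
        rw [← hbval]
        have := mul_le_mul_of_nonneg_left hc hc0
        calc _ = (N : ℝ) * ((((N + i).choose i : ℝ) / (s.choose i : ℝ)) * ((s : ℝ) - i + 1)) *
              (E / (A - κ)) := by ring
          _ ≤ _ := this
          _ = _ := by ring
    have hden : (i : ℝ) * ((N : ℝ) + i - s) - κ + ((s : ℝ) - i + 1) = A - κ := by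
      rw [hAdef]; ring
    rw [hden, g10_fact N s i his]
    calc (N.factorial : ℝ) * (s.factorial : ℝ) * (((N + i).choose i : ℝ) / (s.choose i : ℝ)) *
          ((s : ℝ) - i + 1) / (A - κ) * ((N : ℝ) * E)
        = (N.factorial : ℝ) * (s.factorial : ℝ) * ((N : ℝ) * ((((N + i).choose i : ℝ) /
          (s.choose i : ℝ)) * ((s : ℝ) - i + 1) * (E / (A - κ)))) := by ring
      _ ≤ _ := mul_le_mul_of_nonneg_left hmain (by positivity)

end Pool.Agent.LRG
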