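import Mathlib
import Pool.Agent.LRE.A9
import Pool.Agent.LRT.S2

set_option autoImplicit false

namespace Pool.Agent.LRG

open Finset
open Pool.Agent.MP_f1b527_co
open Pool.Agent.LRE Pool.Agent.LRT

variable {X : Type*} [DecidableEq X] (r : X → X → Prop) [DecidableRel r]

/-- Row LRF-G2. `lin_le_psi r S`; let `u = S.val.map (ups r S)` and `s = u.filter (0 < ·)`:
`psi_filter_pos u`, `s.sum = cp r S` (`sum_ups`; see `hsum` in the proof of
`Pool.Agent.LRT.height2`, LRT/Z1.lean). `s.card ≤ l - 1`: some `x ∈ S` has `ups r S x = 0` (a maximal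
element of the finite strict order). `s.sup ≤ l - 1`: `ups r S x ≤ |S \ {x}|`. Then
`sb s (l-1)`. -/
theorem lin_early2 (hirr : ∀ x, ¬ r x x) (htr : ∀ a b c, r a b → r b c → r a c) (S : Finset X)
    (l : ℕ) (hl : 2 ≤ l) (hS : S.card = l) :
    (lin r S : ℝ) ≤ (l.factorial : ℝ) * hh (l - 1) ((cp r S : ℝ) / ((l : ℝ) - 1)) := by
  set u : Multiset ℕ := S.val.map (ups r S) with hu
  set s : Multiset ℕ := u.filter (fun x => 0 < x) with hs
  have hsum : s.sum = cp r S := by
    rw [← sum_ups r S, ← hu, hs]
    have h3 : (u.filter (fun x => ¬ 0 < x)).sum = 0 := by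
      apply Multiset.sum_eq_zero
      intro x hx
      have := Multiset.of_mem_filter hx
      omega
    have h4 := Multiset.filter_add_not (fun x => 0 < x) u
    have h5 := congrArg Multiset.sum h4
    rw [Multiset.sum_add, h3, add_zero] at h5
    exact h5
  -- a maximal element
  have hmax : ∃ x ∈ S, ups r S x = 0 := by
    obtain ⟨x, hx, hmin⟩ := Finset.exists_min_image S (ups r S)
      (Finset.card_pos.1 (by omega))
    refine ⟨x, hx, ?_⟩
    unfold ups
    rw [Finset.card_eq_zero, Finset.filter_eq_empty_iff]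
    intro y hy hxy
    have h6 := hmin y hy
    have h7 : ups r S y < ups r S x := by
      unfold ups
      apply Finset.card_lt_card
      rw [Finset.ssubset_iff_of_subset (fun z hz => by
        rw [Finset.mem_filter] at hz ⊢
        exact ⟨hz.1, htr x y z hxy hz.2⟩)]
      exact ⟨y, Finset.mem_filter.2 ⟨hy, hxy⟩, fun h => hirr y (Finset.mem_filter.1 h).2⟩
    omega
  have hcard : s.card ≤ l - 1 := by
    obtain ⟨x, hx, h0⟩ := hmax
    have h8 : s.card = (S.filter (fun x => 0 < ups r S x)).card := by
      rw [hs, hu, Multiset.filter_map, Multiset.card_map]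
      rfl
    have h9 : (S.filter (fun x => 0 < ups r S x)) ⊆ S.erase x := by
      intro z hz
      rw [Finset.mem_filter] at hz
      refine Finset.mem_erase.2 ⟨?_, hz.1⟩
      rintro rfl
      omega
    have h10 := Finset.card_le_card h9
    rw [Finset.card_erase_of_mem hx] at h10
    omega
  have hsup : s.sup ≤ l - 1 := by
    rw [Multiset.sup_le]
    intro y hy
    have hy1 := Multiset.mem_of_mem_filter hy
    rw [hu, Multiset.mem_map] at hy1
    obtain ⟨x, hx, rfl⟩ := hy1
    have h9 : (S.filter (fun y => r x y)) ⊆ S.erase x := by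
      intro z hz
      rw [Finset.mem_filter] at hz
      refine Finset.mem_erase.2 ⟨?_, hz.1⟩
      rintro rfl
      exact hirr _ hz.2
    have h10 := Finset.card_le_card h9
    rw [Finset.card_erase_of_mem hx] at h10
    unfold ups
    omega
  have h3 := lin_le_psi r S
  rw [← hu, ← psi_filter_pos u, ← hs, hS] at h3
  refine h3.trans ?_
  have h4 := sb s (l - 1) (by omega) hcard hsup
  rw [hsum, Nat.cast_sub (by omega : 1 ≤ l), Nat.cast_one] at h4
  exact mul_le_mul_of_nonneg_left h4 (Nat.cast_nonneg _)

end Pool.Agent.LRG
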