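import Mathlib
import Pool.Agent.LRP.A3

set_option autoImplicit false

namespace Pool.Agent.LRG

open Finset
open Pool.Agent.LRE Pool.Agent.LRP

theorem h1_zz (M D : ℕ) (hDM : D ≤ M) : zz M D = 1 - 1 / aa M D := by
  have h := one_sub_zz M D
  have h1 := one_le_aa hDM
  have h2 : 1 - zz M D = 1 / aa M D := by
    rw [← h, one_div, inv_inv]
  linarith

theorem h1_phi (M D : ℕ) (hDM : D ≤ M) :
    phi 2 (zz M D) = 4 * aa M D ^ 2 / (aa M D + 1) ^ 2 := by
  have h1 := one_le_aa hDM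
  rw [phi, h1_zz M D hDM]
  set a := aa M D
  have h2 : a ≠ 0 := by linarith
  have h3 : a + 1 ≠ 0 := by linarith
  have h4 : 1 - (1 - 1 / a) / ((2 : ℕ) : ℝ) = (a + 1) / (2 * a) := by
    push_cast
    field_simp
    ring
  rw [h4, div_pow, inv_div]
  congr 1
  ring

theorem h1_e (M D : ℕ) (hDM : D ≤ M) :
    Real.exp (zz M D) ≤ 2.7183 * aa M D / (aa M D + 1) := by
  have h1 := one_le_aa hDM
  rw [h1_zz M D hDM, sub_eq_add_neg, Real.exp_add, Real.exp_neg]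
  set a := aa M D
  have h2 : 0 < a := by linarith
  have h3 : 1 + 1 / a ≤ Real.exp (1 / a) := by
    have := Real.add_one_le_exp (1 / a)
    linarith
  have h4 : (Real.exp (1 / a))⁻¹ ≤ (1 + 1 / a)⁻¹ := by
    apply inv_anti₀ (by positivity) h3
  have h5 : (1 + 1 / a)⁻¹ = a / (a + 1) := by
    rw [show 1 + 1 / a = (a + 1) / a by field_simp, inv_div]
  have h6 := Real.exp_one_lt_d9
  have h7 : Real.exp 1 ≤ 2.7183 := by
    refine h6.le.trans ?_
    norm_num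
  rw [h5] at h4
  calc Real.exp 1 * (Real.exp (1 / a))⁻¹ ≤ 2.7183 * (a / (a + 1)) := by
        apply mul_le_mul h7 h4 (by positivity) (by norm_num)
    _ = 2.7183 * a / (a + 1) := by ring

/-- Row LRF-H1a. `a = aa M D = 1/(1-z)`, `z = zz M D` (`one_sub_zz`), `a ≥ 1` (`one_le_aa`).
`phi 2 z = (1 - z/2)^{-2} = 4a²/(a+1)²` and `e^z = e e^{-1/a} ≤ e/(1 + 1/a) = e a/(a+1)`
(`Real.add_one_le_exp`), `e ≤ 2.7183`. So the claim follows from
`8a² + (g-1) (2.7183) a (a+1) ≤ (a + 2g)(a+1)²`; it is linear in `g`: enough for `g = 1` and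
`g = 5`. -/
theorem h1_a (M D g : ℕ) (hDM : D ≤ M) (hg : 1 ≤ g) (hg5 : g ≤ 5) :
    2 * phi 2 (zz M D) + ((g : ℝ) - 1) * Real.exp (zz M D) ≤ aa M D + 2 * g := by
  have h1 := one_le_aa hDM
  have h2 := h1_e M D hDM
  have h3 := h1_phi M D hDM
  have hgR : (1 : ℝ) ≤ g := by exact_mod_cast hg
  have hgR5 : (g : ℝ) ≤ 5 := by exact_mod_cast hg5
  rw [h3]
  set a := aa M D
  set G : ℝ := (g : ℝ)
  have ha1 : 0 < a + 1 := by linarith
  have h4 : (G - 1) * Real.exp (zz M D) ≤ (G - 1) * (2.7183 * a / (a + 1)) :=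
    mul_le_mul_of_nonneg_left h2 (by linarith)
  have e1 : 0 ≤ a ^ 3 - 4 * a ^ 2 + 5 * a + 2 := by
    nlinarith [mul_nonneg (by linarith : (0 : ℝ) ≤ a) (sq_nonneg (a - 2))]
  have e5 : 0 ≤ a ^ 3 - 6.8732 * a ^ 2 + 10.1268 * a + 10 := by
    nlinarith [mul_nonneg (by linarith : (0 : ℝ) ≤ a) (sq_nonneg (a - 3.4366)),
      mul_nonneg (by linarith : (0 : ℝ) ≤ a) (sq_nonneg (a - 3.7)), sq_nonneg (a - 3.7)]
  have h5 : 2 * (4 * a ^ 2 / (a + 1) ^ 2) + (G - 1) * (2.7183 * a / (a + 1)) ≤ a + 2 * G := by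
    have e : 2 * (4 * a ^ 2 / (a + 1) ^ 2) + (G - 1) * (2.7183 * a / (a + 1)) =
        (8 * a ^ 2 + (G - 1) * (2.7183 * a * (a + 1))) / (a + 1) ^ 2 := by
      field_simp
      ring
    rw [e, div_le_iff₀ (by positivity)]
    nlinarith [mul_nonneg (by linarith : (0 : ℝ) ≤ 5 - G) e1,
      mul_nonneg (by linarith : (0 : ℝ) ≤ G - 1) e5]
  linarith

/-- Row LRF-H1b. `phi 2 z = 4a²/(a+1)²`, `D/(2(D+2)) ≥ 1/4`, and `4a² ≤ (2 + a/4)(a+1)²`. -/
theorem h1_b (M D : ℕ) (hDM : D ≤ M) (hD : 2 ≤ D) :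
    phi 2 (zz M D) ≤ 2 + aa M D * ((D : ℝ) / (2 * ((D : ℝ) + 2))) := by
  have h1 := one_le_aa hDM
  have h3 := h1_phi M D hDM
  have hDR : (2 : ℝ) ≤ D := by exact_mod_cast hD
  rw [h3]
  set a := aa M D
  have h4 : (1 : ℝ) / 4 ≤ (D : ℝ) / (2 * ((D : ℝ) + 2)) := by
    rw [div_le_div_iff₀ (by norm_num) (by linarith)]
    linarith
  have h5 : 4 * a ^ 2 / (a + 1) ^ 2 ≤ 2 + a * (1 / 4) := by
    rw [div_le_iff₀ (by positivity)]
    nlinarith [mul_nonneg (by linarith : (0 : ℝ) ≤ a) (sq_nonneg (a - 3))]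
  have h6 : a * (1 / 4) ≤ a * ((D : ℝ) / (2 * ((D : ℝ) + 2))) :=
    mul_le_mul_of_nonneg_left h4 (by linarith)
  linarith

/-- Row LRF-H1c. `y = 1 - z`; `e^z = e e^{-y} ≤ 2.7183/(1 + y + y²/2)` (`Real.quadratic_le_exp_of_nonneg`).
`y < 0.3069` (`Real.log_two_gt_d9`, `e^z > 2`). `1 - e^{-η} ≤ 2η/(2+η)` for `η ≥ 0`
(`e^η ≤ (2+η)/(2-η)`; for `η ≤ 1` e.g. from `Real.exp_bound'` or by comparing the series; `η ≤ 1/2`
here). The polynomial inequality `2.7183 · 14 η ≤ 5 (2+η)(1 + y + y²/2)`,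
`η = (14 - 6y) y/(7 + 6y)`, holds for `0 ≤ y ≤ 0.3069`. -/
theorem h1_exp (y η : ℝ) (h0 : 0 ≤ y) (h1 : 2 < Real.exp (1 - y)) (hη0 : 0 ≤ η)
    (hη : η ≤ (14 - 6 * y) * y / (7 + 6 * y)) :
    Real.exp (1 - y) * (1 - Real.exp (-η)) ≤ 5 / 7 := by
  have hy : y < 0.3069 := by
    have h2 : Real.log 2 < 1 - y := by
      have := Real.log_lt_log (by norm_num) h1
      rwa [Real.log_exp] at this
    have h3 := Real.log_two_gt_d9
    norm_num at h3 ⊢
    linarith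
  set P : ℝ := 1 + y + y ^ 2 / 2 with hP
  have hP0 : 0 < P := by positivity
  have he : Real.exp (1 - y) ≤ 2.7183 / P := by
    rw [sub_eq_add_neg, Real.exp_add, Real.exp_neg, ← div_eq_mul_inv]
    have h6 := Real.exp_one_lt_d9
    have h7 : Real.exp 1 ≤ 2.7183 := by
      refine h6.le.trans ?_
      norm_num
    exact div_le_div₀ (by norm_num) h7 hP0 (Real.quadratic_le_exp_of_nonneg h0)
  have hq : 0 < 7 + 6 * y := by linarith
  have hη2 : η * (7 + 6 * y) ≤ (14 - 6 * y) * y := by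
    rwa [le_div_iff₀ hq] at hη
  have hη1 : η ≤ 1 / 2 := by
    have h8 : (14 - 6 * y) * y ≤ 1 / 2 * (7 + 6 * y) := by nlinarith
    have h9 : η * (7 + 6 * y) ≤ 1 / 2 * (7 + 6 * y) := hη2.trans h8
    exact le_of_mul_le_mul_right h9 hq
  have hb : 1 - Real.exp (-η) ≤ 2 * η / (2 + η) := by
    have h10 := Real.exp_bound' hη0 (by linarith : η ≤ 1) (n := 3) (by norm_num)
    have h11 : Real.exp η ≤ 1 + η + η ^ 2 / 2 + 2 * η ^ 3 / 9 := by
      refine h10.trans (le_of_eq ?_)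
      simp [Finset.sum_range_succ, Nat.factorial]
      ring
    have h12 : Real.exp η * (2 - η) ≤ 2 + η := by
      calc Real.exp η * (2 - η) ≤ (1 + η + η ^ 2 / 2 + 2 * η ^ 3 / 9) * (2 - η) :=
            mul_le_mul_of_nonneg_right h11 (by linarith)
        _ ≤ 2 + η := by nlinarith [pow_nonneg hη0 3, pow_nonneg hη0 4]
    rw [Real.exp_neg, sub_le_iff_le_add, ← sub_le_iff_le_add']
    have h13 : 1 - 2 * η / (2 + η) = (2 - η) / (2 + η) := by
      field_simp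
      ring
    rw [h13, ← one_div, div_le_div_iff₀ (by linarith) (Real.exp_pos η)]
    linarith
  have hpos : 0 ≤ 1 - Real.exp (-η) := by
    have := Real.exp_le_one_iff.2 (by linarith : -η ≤ 0)
    linarith
  calc Real.exp (1 - y) * (1 - Real.exp (-η)) ≤ 2.7183 / P * (2 * η / (2 + η)) :=
        mul_le_mul he hb hpos (by positivity)
    _ ≤ 5 / 7 := by
        rw [div_mul_div_comm, div_le_div_iff₀ (by positivity) (by norm_num)]
        have hk : η * (38.0562 - 5 * P) ≤ 10 * P := by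
          have h14 : 0 ≤ 38.0562 - 5 * P := by
            rw [hP]
            nlinarith
          have h15 : η * (7 + 6 * y) * (38.0562 - 5 * P) ≤
              (14 - 6 * y) * y * (38.0562 - 5 * P) := mul_le_mul_of_nonneg_right hη2 h14
          have h16 : (14 - 6 * y) * y * (38.0562 - 5 * P) ≤ 10 * P * (7 + 6 * y) := by
            rw [hP]
            have h17 : 0 ≤ 70 - 332.787 * y + 363.3 * y ^ 2 := by
              nlinarith [mul_nonneg h0 (by linarith : (0 : ℝ) ≤ 0.3069 - y)]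
            have h18 : 0 ≤ y ^ 3 * (0.3069 - y) :=
              mul_nonneg (pow_nonneg h0 3) (by linarith)
            nlinarith [pow_nonneg h0 3, pow_nonneg h0 2]
          have h19 : η * (38.0562 - 5 * P) * (7 + 6 * y) ≤ 10 * P * (7 + 6 * y) := by
            calc η * (38.0562 - 5 * P) * (7 + 6 * y) = η * (7 + 6 * y) * (38.0562 - 5 * P) := by ring
              _ ≤ _ := h15.trans h16
          exact le_of_mul_le_mul_right h19 hq
        nlinarith

/-- Row LRF-H1d. `z N = N - 1 - D`, `y = 1 - z = (D+1)/N ≥ m/N`. `θ` is the exponent on the right, and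
`η = z - θ = (z(m-1) + 1 + m)/(N - 1 + m)`; as `N ≥ m/y`,
`η ≤ ((2m) - (m-1) y) y/(m (1+y) - y)`, which decreases with `m` and is
`(14 - 6y) y/(7 + 6y)` for `m = 7`. `e^z - e^θ = e^z (1 - e^{-η}) ≤ 5/7 ≤ (m-2)/m` by `h1_exp`. -/
theorem h1_c (M D m : ℕ) (hm : 7 ≤ m) (hD : m ≤ D + 1) (hDM : D ≤ M) (hM : 3 * m ≤ M)
    (h2 : 2 < Real.exp (zz M D)) :
    (m : ℝ) * Real.exp (zz M D) - ((m : ℝ) - 2) ≤
      (m : ℝ) * Real.exp (((M : ℝ) - ((D : ℝ) + 1) - m) / ((M : ℝ) + m)) := by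
  have hmR : (7 : ℝ) ≤ m := by exact_mod_cast hm
  have hDR : (m : ℝ) ≤ (D : ℝ) + 1 := by exact_mod_cast hD
  have hDMR : (D : ℝ) ≤ M := by exact_mod_cast hDM
  have hMR : 3 * (m : ℝ) ≤ M := by exact_mod_cast hM
  set N : ℝ := (M : ℝ) + 1 with hN
  have hN0 : 0 < N := by linarith
  set θ : ℝ := ((M : ℝ) - ((D : ℝ) + 1) - m) / ((M : ℝ) + m) with hθ
  set y : ℝ := ((D : ℝ) + 1) / N with hy
  have hz : zz M D = 1 - y := by
    unfold zz
    rw [hy, ← hN, eq_sub_iff_add_eq, ← add_div, div_eq_one_iff_eq hN0.ne']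
    rw [hN]; ring
  have hy0 : 0 < y := by positivity
  have hyN : y * N = (D : ℝ) + 1 := div_mul_cancel₀ _ hN0.ne'
  have hy1 : y ≤ 1 := by
    rw [hy, div_le_one hN0]
    linarith
  have hden : 0 < (M : ℝ) + m := by linarith
  have hmN : (m : ℝ) ≤ y * N := by linarith
  have hη : zz M D - θ = (2 * m - (m - 1) * y) / ((M : ℝ) + m) := by
    rw [hz, hθ, eq_div_iff hden.ne', sub_mul, div_mul_cancel₀ _ hden.ne']
    have : (D : ℝ) = y * N - 1 := by linarith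
    rw [this, hN]
    ring
  have hnum : 0 ≤ 2 * (m : ℝ) - (m - 1) * y := by nlinarith
  have hη0 : 0 ≤ zz M D - θ := by
    rw [hη]
    positivity
  have hη1 : zz M D - θ ≤ (14 - 6 * y) * y / (7 + 6 * y) := by
    rw [hη, div_le_div_iff₀ hden (by linarith)]
    have k1 : (2 * (m : ℝ) - (m - 1) * y) * (7 + 6 * y) ≤
        (14 - 6 * y) * (m + (m - 1) * y) := by
      nlinarith [mul_nonneg hy0.le (by linarith : (0 : ℝ) ≤ (m : ℝ) - 7)]
    have k2 : (m : ℝ) + (m - 1) * y ≤ y * ((M : ℝ) + m) := by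
      have : (M : ℝ) = N - 1 := by rw [hN]; ring
      rw [this]
      linarith
    calc (2 * (m : ℝ) - (m - 1) * y) * (7 + 6 * y) ≤ (14 - 6 * y) * (m + (m - 1) * y) := k1
      _ ≤ (14 - 6 * y) * (y * ((M : ℝ) + m)) := by
          apply mul_le_mul_of_nonneg_left k2 (by linarith)
      _ = (14 - 6 * y) * y * ((M : ℝ) + m) := by ring
  rw [hz] at h2
  have h3 := h1_exp y (zz M D - θ) hy0.le h2 hη0 hη1
  rw [← hz] at h3
  have h4 : Real.exp (zz M D) * Real.exp (-(zz M D - θ)) = Real.exp θ := by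
    rw [← Real.exp_add]
    congr 1
    ring
  have h5 : Real.exp (zz M D) - Real.exp θ ≤ 5 / 7 := by
    rw [mul_sub, mul_one, h4] at h3
    exact h3
  nlinarith

end Pool.Agent.LRG
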